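import Pool.Agent.Lib.MP_af3a4a_an.P1.CHK.H80.F5

/-!
# TAIL24, real inequalities (council 2, helper32)
-/

set_option autoImplicit false

namespace Pool.Agent.Lib.MP_af3a4a_an.P1.H32.Tail24

open Pool.Agent.Lib.MP_af3a4a_an.P1.CHK.H80

/-- the linear bound -/
theorem lin {R L θ m x h : ℝ} (hm : |m| ≤ 1) (hx : 1 < x) (hθ : 0 < θ)
    (h0 : h ≤ R * L + (1 + Real.log θ) / 2 - θ * (1 + x) ^ 2 / 2)
    (h2 : h ≤ (R - 2) * L + (1 + Real.log θ) / 2 - θ * (x - 1) ^ 2 / 2) :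
    h ≤ (R - 1 - m) * L - Real.log (gg m x) / 2 := by
  have hm1 := abs_le.1 hm
  have hg : 0 < gg m x := by
    unfold gg
    have h3 : 0 ≤ 2 * x * (1 - m) := by
      apply mul_nonneg <;> linarith
    linarith only [hx, h3, sq_pos_of_pos (sub_pos.2 hx)]
  have h3 := Real.log_le_sub_one_of_pos (mul_pos hθ hg)
  rw [Real.log_mul hθ.ne' hg.ne'] at h3
  have h4 := mul_le_mul_of_nonneg_left h0 (show 0 ≤ (1 - m) / 2 by linarith only [hm1])
  have h5 := mul_le_mul_of_nonneg_left h2 (show 0 ≤ (1 + m) / 2 by linarith only [hm1])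
  have h6 : (1 - m) / 2 * h + (1 + m) / 2 * h = h := by ring
  have h7 : (1 - m) / 2 * (R * L + (1 + Real.log θ) / 2 - θ * (1 + x) ^ 2 / 2) +
      (1 + m) / 2 * ((R - 2) * L + (1 + Real.log θ) / 2 - θ * (x - 1) ^ 2 / 2) =
      (R - 1 - m) * L + (1 + Real.log θ) / 2 - θ * gg m x / 2 := by
    unfold gg
    ring
  linarith only [h3, h4, h5, h7]

/-- lower bound of `- log (1 - x/R)` -/
theorem L_ge {t : ℝ} (h0 : 0 ≤ t) (h1 : t < 1) :
    t + t ^ 2 / 2 + t ^ 3 / 3 ≤ -Real.log (1 - t) := by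
  have h2 : |t| < 1 := by rwa [abs_of_nonneg h0]
  have h3 := Real.hasSum_pow_div_log_of_abs_lt_one h2
  have h4 := sum_le_hasSum (Finset.range 3) (fun i _ => by positivity) h3
  simp only [Finset.sum_range_succ, Finset.sum_range_zero] at h4
  norm_num at h4
  linarith only [h4]

/-- the tangent of `- log (1 - x/R)` at `x = 1` -/
theorem L_tan {R x : ℝ} (hR : 1 < R) (hx : x < R) :
    -Real.log (1 - 1 / R) + (x - 1) / (R - 1) ≤ -Real.log (1 - x / R) := by
  have hR0 : 0 < R := by linarith only [hR]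
  have h1 : 0 < 1 - 1 / R := by
    rw [sub_pos, div_lt_one hR0]
    exact hR
  have h2 : 0 < 1 - x / R := by
    rw [sub_pos, div_lt_one hR0]
    exact hx
  have h3 := Real.log_le_sub_one_of_pos (div_pos h2 h1)
  rw [Real.log_div h2.ne' h1.ne'] at h3
  have h4 : (1 - x / R) / (1 - 1 / R) - 1 = -((x - 1) / (R - 1)) := by
    have : R - 1 ≠ 0 := by linarith only [hR]
    have h5 : 1 - 1 / R = (R - 1) / R := by field_simp
    rw [h5]
    field_simp
    ring
  linarith only [h3, h4]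

/-- lower bound of `L` at `x = 1`, third order -/
theorem L1_ge {R : ℝ} (hR : 1 < R) :
    1 / R + (1 / R) ^ 2 / 2 + (1 / R) ^ 3 / 3 ≤ -Real.log (1 - 1 / R) :=
  L_ge (by positivity) (by rw [div_lt_one (by linarith only [hR])]; exact hR)

theorem log_ge {t : ℝ} (ht : 1 ≤ t) : 2 * (t - 1) / (t + 1) ≤ Real.log t := by
  have hx0 : 0 ≤ (t - 1) / (t + 1) := div_nonneg (by linarith only [ht]) (by linarith only [ht])
  have hx1 : (t - 1) / (t + 1) < 1 := by
    rw [div_lt_one (by linarith only [ht])]; linarith only []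
  have h := Real.hasSum_log_sub_log_of_abs_lt_one (x := (t - 1) / (t + 1))
    (by rw [abs_of_nonneg hx0]; exact hx1)
  have h1 : Real.log (1 + (t - 1) / (t + 1)) - Real.log (1 - (t - 1) / (t + 1)) = Real.log t := by
    rw [← Real.log_div (by linarith only [hx0]) (by linarith only [hx1])]
    congr 1
    have : t + 1 ≠ 0 := by linarith only [ht]
    field_simp
    ring
  rw [h1] at h
  have h2 := le_hasSum h 0 (fun j _ => by positivity)
  simp only [mul_zero, zero_add, Nat.cast_zero, pow_one] at h2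
  refine le_trans (le_of_eq ?_) h2
  ring

/-- the polynomial behind `gam_c` -/
theorem poly_c {R x : ℝ} (hR : 29 / 12 ≤ R) (hR3 : R ≤ 3) (hx1 : 1 ≤ x) (hx2 : x ≤ 17 * R / 32) :
    0 ≤ (2 * (R + 1) + (R - 1) * (x + 1) / 4) * ((R - x) * (R * x - 1)) -
      R * (R - 1) * (x + 1) ^ 2 := by
  obtain ⟨s, hs⟩ : ∃ s, s = R - 29 / 12 := ⟨_, rfl⟩
  obtain ⟨t, ht⟩ : ∃ t, t = x - 1 := ⟨_, rfl⟩
  have hs0 : 0 ≤ s := by linarith only [hR, hs]
  have ht0 : 0 ≤ t := by linarith only [hx1, ht]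
  have hR' : R = 29 / 12 + s := by linarith only [hs]
  have hx' : x = 1 + t := by linarith only [ht]
  obtain ⟨T, hT⟩ : ∃ T, T = (17 * (17 / 12 + s) - 15) / 32 := ⟨_, rfl⟩
  have htT : t ≤ T := by rw [hT]; linarith only [hx2, hs, ht]
  obtain ⟨c, hc⟩ : ∃ c, c = 17 / 12 + s := ⟨_, rfl⟩
  have hc0 : 0 < c := by linarith only [hR, hs, hc]
  obtain ⟨a0, ha0⟩ : ∃ a0, a0 = 5 / 2 * c ^ 3 - 4 * c := ⟨_, rfl⟩
  obtain ⟨a1, ha1⟩ : ∃ a1, a1 = 11 / 4 * c ^ 3 - 4 * c - T * (4 + 15 / 2 * c + 7 / 2 * c ^ 2) -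
    T ^ 2 * (c ^ 2 + c) / 4 := ⟨_, rfl⟩
  have e1 : (2 * (R + 1) + (R - 1) * (x + 1) / 4) * ((R - x) * (R * x - 1)) -
      R * (R - 1) * (x + 1) ^ 2 = a0 + t * (11 / 4 * c ^ 3 - 4 * c) -
      t ^ 2 * (4 + 15 / 2 * c + 7 / 2 * c ^ 2 - c ^ 3 / 4) - t ^ 3 * (c ^ 2 + c) / 4 := by
    rw [ha0, hR', hx', hc]
    ring
  rw [e1]
  have h1 : t ^ 2 * (4 + 15 / 2 * c + 7 / 2 * c ^ 2) ≤
      t * T * (4 + 15 / 2 * c + 7 / 2 * c ^ 2) := by
    apply mul_le_mul_of_nonneg_right _ (by positivity)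
    nlinarith only [hR, hx1, hx2, hs, ht, hT]
  have h2 : t ^ 3 * (c ^ 2 + c) ≤ t * T ^ 2 * (c ^ 2 + c) := by
    apply mul_le_mul_of_nonneg_right _ (by positivity)
    have : t ^ 2 ≤ T ^ 2 := pow_le_pow_left₀ ht0 htT 2
    nlinarith only [hx1, ht, this]
  have h3 : 0 ≤ t ^ 2 * (c ^ 3 / 4) := by positivity
  have h4 : 0 ≤ a0 := by
    rw [ha0, hc]
    have : 5 / 2 * (17 / 12 + s) ^ 3 - 4 * (17 / 12 + s) = 5 / 2 * s ^ 3 + 85 / 8 * s ^ 2 +
      (5 / 2 * 3 * (17 / 12) ^ 2 - 4) * s + (5 / 2 * (17 / 12) ^ 3 - 4 * (17 / 12)) := by ring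
    rw [this]
    norm_num
    positivity
  have h5 : 0 ≤ a0 + T * a1 := by
    have e2 : a0 + T * a1 = 9399689327 / 32614907904 + 20915218667 / 2717908992 * s ^ 1 + 977804923 / 113246208 * s ^ 2 + 29517659 / 9437184 * s ^ 3 + 423691 / 1572864 * s ^ 4 + -4913 / 131072 * s ^ 5 := by
      rw [ha0, ha1, hT, hc]
      ring
    rw [e2]
    have h6 : s ^ 5 ≤ s ^ 4 := pow_le_pow_of_le_one hs0 (by linarith only [hR3, hs]) (by norm_num)
    have h7 : 0 ≤ s ^ 2 := by positivity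
    have h8 : 0 ≤ s ^ 3 := by positivity
    have h9 : 0 ≤ s ^ 4 := by positivity
    linarith only [hR, hs, h6, h7, h8, h9]
  rcases le_total 0 a1 with h6 | h6
  · have := mul_nonneg ht0 h6
    rw [ha1] at this
    linarith only [h1, h2, h3, h4, this]
  · have := mul_le_mul_of_nonpos_right htT h6
    rw [ha1] at this h5
    linarith only [h1, h2, h3, h5, this]

/-- `κ (r - 1/r) ≤ log r + (x - 1)/4` -/
theorem gam_c {R x : ℝ} (hR : 29 / 12 ≤ R) (hR3 : R ≤ 3) (hx1 : 1 ≤ x) (hx2 : x ≤ 17 * R / 32) :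
    R * (x ^ 2 - 1) / ((R - x) * (R * x - 1)) ≤
      Real.log ((R * x - 1) / (R - x)) + (x - 1) / 4 := by
  have hRx : 0 < R - x := by linarith only [hR, hx2]
  have hRx1 : 0 < R * x - 1 := by nlinarith only [hR, hx1]
  have hR1 : 0 < R - 1 := by linarith only [hR]
  have h0 : 1 ≤ (R * x - 1) / (R - x) := by
    rw [le_div_iff₀ hRx]
    nlinarith only [hR, hx1]
  have h1 := log_ge h0
  have h2 : 2 * ((R * x - 1) / (R - x) - 1) / ((R * x - 1) / (R - x) + 1) =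
      2 * (R + 1) * (x - 1) / ((R - 1) * (x + 1)) := by
    have e2 : (R * x - 1) / (R - x) + 1 = (R - 1) * (x + 1) / (R - x) := by
      field_simp
      ring
    rw [e2]
    field_simp
    ring
  rw [h2] at h1
  have h3 := poly_c hR hR3 hx1 hx2
  have h4 : R * (x ^ 2 - 1) / ((R - x) * (R * x - 1)) ≤
      2 * (R + 1) * (x - 1) / ((R - 1) * (x + 1)) + (x - 1) / 4 := by
    have e3 : 2 * (R + 1) * (x - 1) / ((R - 1) * (x + 1)) + (x - 1) / 4 =
        (x - 1) * (2 * (R + 1) + (R - 1) * (x + 1) / 4) / ((R - 1) * (x + 1)) := by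
      field_simp
    rw [e3, div_le_div_iff₀ (by positivity) (by positivity)]
    have := mul_nonneg (show 0 ≤ x - 1 by linarith only [hx1]) h3
    linarith only [this]
  linarith only [h1, h4]

/-- case (c): `29/12 ≤ R ≤ 3` -/
theorem case_c {R x m : ℝ} (hR : 29 / 12 ≤ R) (hR3 : R ≤ 3) (hx1 : 1 < x) (hx2 : x ≤ 17 * R / 32)
    (hm : |m| ≤ 1) : 1 / 3 + (x - 1) / 4 ≤
      (R - 1 - m) * (-Real.log (1 - x / R)) - Real.log (gg m x) / 2 := by
  have hR0 : 0 < R := by linarith only [hx1, hx2]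
  have hR1 : 0 < R - 1 := by linarith only [hx1, hx2]
  have h1 := L1_ge (show 1 < R by linarith only [hx1, hx2])
  have h2 := L_tan (R := R) (x := x) (by linarith only [hx1, hx2]) (by linarith only [hx1, hx2])
  obtain ⟨t, ht⟩ : ∃ t, t = x - 1 := ⟨_, rfl⟩
  have ht0 : 0 < t := by linarith only [hx1, ht]
  have hx : x = 1 + t := by linarith only [ht]
  have hlog : -(6932 / 10000 : ℝ) ≤ Real.log (1 / 2) := by
    rw [one_div, Real.log_inv]
    have := Real.log_two_lt_d9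
    linarith only [this]
  obtain ⟨L, hL⟩ : ∃ L, L = -Real.log (1 - x / R) := ⟨_, rfl⟩
  rw [← hL] at h2 ⊢
  have e1 : (x - 1) / (R - 1) = t / (R - 1) := by rw [ht]
  rw [e1] at h2
  obtain ⟨e, he⟩ : ∃ e, e = 1 / R := ⟨_, rfl⟩
  obtain ⟨f, hf⟩ : ∃ f, f = 1 / (R - 1) := ⟨_, rfl⟩
  rw [← he] at h1 h2
  have eR : R * e = 1 := by rw [he]; field_simp
  have fR : (R - 1) * f = 1 := by rw [hf]; field_simp
  have e0 : 1 / 3 ≤ e := by
    rw [he]
    exact one_div_le_one_div_of_le (by linarith only [hx1, hx2]) hR3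
  have e1' : e ≤ 12 / 29 := by
    rw [he, div_le_div_iff₀ hR0 (by norm_num)]
    linarith only [hR]
  have f0 : 1 / 2 ≤ f := by
    rw [hf]
    exact one_div_le_one_div_of_le (by linarith only [hx1, hx2]) (by linarith only [hR3])
  have e2 : t / (R - 1) = t * f := by rw [hf]; ring
  rw [e2] at h2
  have hL0 : e + e ^ 2 / 2 + e ^ 3 / 3 + t * f ≤ L := by linarith only [h1, h2]
  have hRL := mul_le_mul_of_nonneg_left hL0 hR0.le
  have hRL2 := mul_le_mul_of_nonneg_left hL0 (show 0 ≤ R - 2 by linarith only [hR, hx1, hx2])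
  have g1 : R * (e + e ^ 2 / 2 + e ^ 3 / 3 + t * f) = 1 + e / 2 + e ^ 2 / 3 + t * (1 + f) := by
    have : R * (e + e ^ 2 / 2 + e ^ 3 / 3 + t * f) = (R * e) * (1 + e / 2 + e ^ 2 / 3) +
      t * ((R - 1) * f + f) := by ring
    rw [this, eR, fR]
    ring
  have g2 : (R - 2) * (e + e ^ 2 / 2 + e ^ 3 / 3 + t * f) =
      1 - 3 / 2 * e - 2 / 3 * e ^ 2 - 2 / 3 * e ^ 3 + t * (1 - f) := by
    have : (R - 2) * (e + e ^ 2 / 2 + e ^ 3 / 3 + t * f) = (R * e) * (1 + e / 2 + e ^ 2 / 3) -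
      2 * (e + e ^ 2 / 2 + e ^ 3 / 3) + t * ((R - 1) * f - f) := by ring
    rw [this, eR, fR]
    ring
  rw [g1] at hRL
  rw [g2] at hRL2
  have ht1 : t ≤ 19 / 32 := by linarith only [hR3, hx2, ht]
  have htt : t ^ 2 ≤ 19 / 32 * t := by nlinarith only [hR3, hx1, hx2, ht]
  have ee : 1 / 9 ≤ e ^ 2 := by nlinarith only [hR3, hx1, ht, eR, fR, e0, g1]
  have tf : t * (1 / 2) ≤ t * f := mul_le_mul_of_nonneg_left f0 ht0.le
  apply lin hm hx1 (show (0 : ℝ) < 1 / 2 by norm_num)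
  · have e3 : 1 / 2 * (1 + x) ^ 2 / 2 = 1 + t + t ^ 2 / 4 := by rw [hx]; ring
    rw [e3]
    linarith only [hx1, ht, hlog, e0, hRL, htt, ee, tf]
  · have e3 : 1 / 2 * (x - 1) ^ 2 / 2 = t ^ 2 / 4 := by rw [hx]; ring
    rw [e3]
    have k1 : e ^ 2 ≤ (12 / 29) ^ 2 := pow_le_pow_left₀ (by linarith only [e0]) e1' 2
    have k2 : e ^ 3 ≤ (12 / 29) ^ 3 := pow_le_pow_left₀ (by linarith only [e0]) e1' 3
    have k3 : t ≤ (17 * R - 32) / 32 := by linarith only [hx2, ht]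
    have k4 : -(3 / 100 : ℝ) ≤ (1 - f) - 1 / 4 - (17 * R - 32) / 128 := by
      have : f = 1 / (R - 1) := hf
      have h3 : f ≤ 103 / 100 - 17 * R / 128 := by
        rw [this, div_le_iff₀ hR1]
        nlinarith only [hR, hR3, hx1, hx2]
      linarith only [h3]
    have k5 : t * (-(3 / 100 : ℝ)) ≤ t * ((1 - f) - 1 / 4 - t / 4) := by
      apply mul_le_mul_of_nonneg_left _ ht0.le
      linarith only [hx2, ht, k4]
    have k6 : t * ((1 - f) - 1 / 4 - t / 4) = t * (1 - f) - t / 4 - t ^ 2 / 4 := by ring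
    rw [k6] at k5
    norm_num at k1 k2
    linarith only [hR3, hx1, hx2, ht, hlog, e1', hRL2, k5, k1, k2]

theorem log_52 : Real.log (5 / 2) ≤ 9168 / 10000 := by
  have h4 : Real.log (5 / 2) = Real.log 2 + Real.log (5 / 4) := by
    rw [← Real.log_mul (by norm_num) (by norm_num)]
    norm_num
  have h5 : Real.log (5 / 4) ≤ 2236 / 10000 := by
    rw [Real.log_le_iff_le_exp (by norm_num)]
    have h6 := Real.sum_le_exp_of_nonneg (show (0 : ℝ) ≤ 2236 / 10000 by norm_num) 4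
    refine le_trans ?_ h6
    norm_num [Finset.sum_range_succ, Nat.factorial]
  have := Real.log_two_lt_d9
  linarith only [h4, h5, this]

/-- case (b): `3 ≤ R ≤ 4` -/
theorem case_b {R x m : ℝ} (hR : 3 ≤ R) (hR4 : R ≤ 4) (hx1 : 1 < x) (hx2 : x ≤ 17 * R / 32)
    (hm : |m| ≤ 1) : 1 / 3 ≤ (R - 1 - m) * (-Real.log (1 - x / R)) - Real.log (gg m x) / 2 := by
  have hR0 : 0 < R := by linarith only [hx1, hx2]
  have hR1 : 0 < R - 1 := by linarith only [hx1, hx2]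
  have h1 := L1_ge (show 1 < R by linarith only [hx1, hx2])
  have h2 := L_tan (R := R) (x := x) (by linarith only [hx1, hx2]) (by linarith only [hx1, hx2])
  obtain ⟨t, ht⟩ : ∃ t, t = x - 1 := ⟨_, rfl⟩
  have ht0 : 0 < t := by linarith only [hx1, ht]
  have hx : x = 1 + t := by linarith only [ht]
  have hlog : -(9168 / 10000 : ℝ) ≤ Real.log (2 / 5) := by
    have h3 : Real.log (2 / 5) = -Real.log (5 / 2) := by
      rw [← Real.log_inv]
      norm_num
    have := log_52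
    linarith only [h3, this]
  obtain ⟨L, hL⟩ : ∃ L, L = -Real.log (1 - x / R) := ⟨_, rfl⟩
  rw [← hL] at h2 ⊢
  have e1 : (x - 1) / (R - 1) = t / (R - 1) := by rw [ht]
  rw [e1] at h2
  obtain ⟨e, he⟩ : ∃ e, e = 1 / R := ⟨_, rfl⟩
  obtain ⟨f, hf⟩ : ∃ f, f = 1 / (R - 1) := ⟨_, rfl⟩
  rw [← he] at h1 h2
  have eR : R * e = 1 := by rw [he]; field_simp
  have fR : (R - 1) * f = 1 := by rw [hf]; field_simp
  have e0 : 1 / 4 ≤ e := by
    rw [he]
    exact one_div_le_one_div_of_le (by linarith only [hx1, hx2]) hR4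
  have e1' : e ≤ 1 / 3 := by
    rw [he]
    exact one_div_le_one_div_of_le (by norm_num) hR
  have f0 : 1 / 3 ≤ f := by
    rw [hf]
    exact one_div_le_one_div_of_le (by linarith only [hx1, hx2]) (by linarith only [hR4])
  have f1 : f ≤ 1 / 2 := by
    rw [hf]
    exact one_div_le_one_div_of_le (by norm_num) (by linarith only [hR])
  have e2 : t / (R - 1) = t * f := by rw [hf]; ring
  rw [e2] at h2
  have hL0 : e + e ^ 2 / 2 + e ^ 3 / 3 + t * f ≤ L := by linarith only [h1, h2]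
  have hRL := mul_le_mul_of_nonneg_left hL0 hR0.le
  have hRL2 := mul_le_mul_of_nonneg_left hL0 (show 0 ≤ R - 2 by linarith only [hR, hx1, hx2])
  have g1 : R * (e + e ^ 2 / 2 + e ^ 3 / 3 + t * f) = 1 + e / 2 + e ^ 2 / 3 + t * (1 + f) := by
    have : R * (e + e ^ 2 / 2 + e ^ 3 / 3 + t * f) = (R * e) * (1 + e / 2 + e ^ 2 / 3) +
      t * ((R - 1) * f + f) := by ring
    rw [this, eR, fR]
    ring
  have g2 : (R - 2) * (e + e ^ 2 / 2 + e ^ 3 / 3 + t * f) =
      1 - 3 / 2 * e - 2 / 3 * e ^ 2 - 2 / 3 * e ^ 3 + t * (1 - f) := by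
    have : (R - 2) * (e + e ^ 2 / 2 + e ^ 3 / 3 + t * f) = (R * e) * (1 + e / 2 + e ^ 2 / 3) -
      2 * (e + e ^ 2 / 2 + e ^ 3 / 3) + t * ((R - 1) * f - f) := by ring
    rw [this, eR, fR]
    ring
  rw [g1] at hRL
  rw [g2] at hRL2
  have ht1 : t ≤ 9 / 8 := by linarith only [hR4, hx2, ht]
  have htt : t ^ 2 ≤ 9 / 8 * t := by nlinarith only [hR4, hx1, hx2, ht]
  have ee : 1 / 16 ≤ e ^ 2 := by nlinarith only [hR4, hx1, ht, eR, fR, e0, g1]
  have tf : t * (1 / 3) ≤ t * f := mul_le_mul_of_nonneg_left f0 ht0.le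
  have tf2 : t * f ≤ t * (1 / 2) := mul_le_mul_of_nonneg_left f1 ht0.le
  have g3 : t * (1 + f) = t + t * f := by ring
  have g4 : t * (1 - f) = t - t * f := by ring
  rw [g3] at hRL
  rw [g4] at hRL2
  apply lin hm hx1 (show (0 : ℝ) < 2 / 5 by norm_num)
  · have e3 : 2 / 5 * (1 + x) ^ 2 / 2 = 4 / 5 + 4 / 5 * t + t ^ 2 / 5 := by rw [hx]; ring
    rw [e3]
    linarith only [hx1, ht, hlog, e0, hRL, htt, ee, tf]
  · have e3 : 2 / 5 * (x - 1) ^ 2 / 2 = t ^ 2 / 5 := by rw [hx]; ring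
    rw [e3]
    have k1 : e ^ 2 ≤ (1 / 3) ^ 2 := pow_le_pow_left₀ (by linarith only [e0]) e1' 2
    have k2 : e ^ 3 ≤ (1 / 3) ^ 3 := pow_le_pow_left₀ (by linarith only [e0]) e1' 3
    norm_num at k1 k2
    linarith only [hx1, ht, hlog, e1', hRL2, htt, tf2, k1, k2]

/-- case (a): `R ≥ 4` -/
theorem case_a {R x m : ℝ} (hR : 4 ≤ R) (hx1 : 1 < x) (hx2 : x ≤ 3 * R / 5)
    (hm : |m| ≤ 1) : 3 / 10 + (x - 1) / 5 ≤
      (R - 1 - m) * (-Real.log (1 - x / R)) - Real.log (gg m x) / 2 := by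
  have hR0 : 0 < R := by linarith only [hR]
  have hx0 : 0 < x := by linarith only [hx1]
  obtain ⟨e, he⟩ : ∃ e, e = 1 / R := ⟨_, rfl⟩
  have eR : R * e = 1 := by rw [he]; field_simp
  have e0 : 0 < e := by rw [he]; positivity
  have e1 : e ≤ 1 / 4 := by
    rw [he]
    exact one_div_le_one_div_of_le (by norm_num) hR
  have hxe : x / R = x * e := by rw [he]; ring
  have hx1' : x * e < 1 := by
    rw [← hxe, div_lt_one hR0]
    linarith only [hR, hx2, e0, e1]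
  have h1 := L_ge (by positivity : 0 ≤ x * e) hx1'
  rw [hxe]
  obtain ⟨L, hL⟩ : ∃ L, L = -Real.log (1 - x * e) := ⟨_, rfl⟩
  rw [← hL] at h1 ⊢
  have h2 : x * e + (x * e) ^ 2 / 2 ≤ L := by
    have : 0 ≤ (x * e) ^ 3 / 3 := by positivity
    linarith only [h1, this]
  have hRL := mul_le_mul_of_nonneg_left h2 hR0.le
  have hRL2 := mul_le_mul_of_nonneg_left h2 (show 0 ≤ R - 2 by linarith only [hR, e0, e1])
  have g1 : R * (x * e + (x * e) ^ 2 / 2) = x + e * x ^ 2 / 2 := by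
    have : R * (x * e + (x * e) ^ 2 / 2) = (R * e) * (x + e * x ^ 2 / 2) := by ring
    rw [this, eR, one_mul]
  have g2 : (R - 2) * (x * e + (x * e) ^ 2 / 2) = (1 - 2 * e) * (x + e * x ^ 2 / 2) := by
    have : (R - 2) * (x * e + (x * e) ^ 2 / 2) = (R * e - 2 * e) * (x + e * x ^ 2 / 2) := by ring
    rw [this, eR]
  rw [g1] at hRL
  rw [g2] at hRL2
  have hθ : 0 < 1 / (1 + x) ^ 2 := by positivity
  have hlθ : Real.log (1 / (1 + x) ^ 2) = -(2 * Real.log (1 + x)) := by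
    rw [one_div, Real.log_inv, Real.log_pow]
    push_cast
    ring
  have hl52 := log_52
  have l1 : Real.log (1 + x) ≤ 4168 / 10000 - 1 / 10 + 2 / 5 * x := by
    have h3 := Real.log_le_sub_one_of_pos (show 0 < (1 + x) / (5 / 2) by positivity)
    rw [Real.log_div (by positivity) (by norm_num)] at h3
    linarith only [hl52, h3]
  have l2 : Real.log (1 + x) ≤ 1932 / 10000 + x / 2 := by
    have h3 := Real.log_le_sub_one_of_pos (show 0 < (1 + x) / 2 by positivity)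
    rw [Real.log_div (by positivity) (by norm_num)] at h3
    have := Real.log_two_lt_d9
    linarith only [hx1, l1, h3, this]
  apply lin hm hx1 hθ
  · rw [hlθ]
    have e3 : 1 / (1 + x) ^ 2 * (1 + x) ^ 2 / 2 = 1 / 2 := by field_simp
    rw [e3]
    have : 0 ≤ e * x ^ 2 / 2 := by positivity
    linarith only [hx1, hRL, l1, l2, this]
  · rw [hlθ]
    have e3 : 1 / (1 + x) ^ 2 * (x - 1) ^ 2 / 2 = 1 / 2 - 2 * x / (1 + x) ^ 2 := by
      field_simp
      ring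
    rw [e3]
    obtain ⟨t, ht⟩ : ∃ t, t = x - 1 := ⟨_, rfl⟩
    have ht0 : 0 ≤ t := by linarith only [hx1, ht]
    have hx : x = 1 + t := by linarith only [ht]
    have hA0 : 0 ≤ 2 / 5 * x - 4168 / 10000 + 2 * x / (1 + x) ^ 2 := by
      have e4 : 2 / 5 * x - 4168 / 10000 + 2 * x / (1 + x) ^ 2 =
          ((2 / 5 * x - 4168 / 10000) * (1 + x) ^ 2 + 2 * x) / (1 + x) ^ 2 := by field_simp
      rw [e4]
      apply div_nonneg _ (by positivity)
      have e5 : (2 / 5 * x - 4168 / 10000) * (1 + x) ^ 2 + 2 * x =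
          (2 - 672 / 10000) + (36 / 10 - 672 / 10000) * t + (16 / 10 - 168 / 10000) * t ^ 2 +
            4 / 10 * t ^ 3 := by
        rw [hx]
        ring
      rw [e5]
      norm_num
      positivity
    have hA1 : 0 ≤ x ^ 2 / 16 - x / 10 - 4168 / 10000 + 2 * x / (1 + x) ^ 2 := by
      have e4 : x ^ 2 / 16 - x / 10 - 4168 / 10000 + 2 * x / (1 + x) ^ 2 =
          ((x ^ 2 / 16 - x / 10 - 4168 / 10000) * (1 + x) ^ 2 + 2 * x) / (1 + x) ^ 2 := by
        field_simp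
      rw [e4]
      apply div_nonneg _ (by positivity)
      rw [hx]
      linarith only [hx1, e0, e1, ht, ht0, mul_nonneg ht0 (sq_nonneg (t - 1 / 5)), pow_nonneg ht0 3, pow_nonneg ht0 4]
    have hB : x - 2 * e * x + e * x ^ 2 / 4 ≤ (1 - 2 * e) * (x + e * x ^ 2 / 2) := by
      have := mul_nonneg (mul_nonneg e0.le (sq_nonneg x)) (show 0 ≤ 1 / 4 - e by linarith only [e1])
      linarith only [this]
    have hC0 := mul_nonneg (show 0 ≤ 1 - 4 * e by linarith only [e1]) hA0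
    have hC1 := mul_nonneg (show 0 ≤ 4 * e by linarith only [e0]) hA1
    linarith only [hRL2, l1, hB, hC0, hC1]

end Pool.Agent.Lib.MP_af3a4a_an.P1.H32.Tail24
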