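import Pool.Agent.Lib.MP_af3a4a_an.P1.H74.TailQ
import Pool.Agent.Lib.MP_af3a4a_an.P1.H21.VTail
import Pool.Agent.Lib.MP_af3a4a_an.P1.H11.Need
import Pool.Agent.Lib.MP_af3a4a_an.P1.H79.Chain
import Pool.Agent.Lib.MP_af3a4a_an.P1.H32.Tail24A

/-!
# TAIL24 (council 2, helper32)

`29/12 ≤ R`, `24 < N M*`: `((N+1)/R) |∫_0^1 q| < 1/50` for a configuration in normal form.
-/

set_option autoImplicit false

namespace Pool.Agent.Lib.MP_af3a4a_an.P1.H32.Tail24

open MeasureTheory intervalIntegral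
open Pool.Agent.Lib.MP_af3a4a_an.SV (uu av)
open Pool.Agent.Lib.MP_af3a4a_an.P1.H80
open Pool.Agent.Lib.MP_af3a4a_an.P1.CHK.H80
open Pool.Agent.Lib.MP_af3a4a_an.P1.H32
open Pool.Agent.Lib.MP_af3a4a_an.P1.H28 (cost_sum)
open Pool.Agent.Lib.MP_af3a4a_an.P1.H79 (NM)

variable {N : ℕ} {z w : Fin N → ℂ} {R : ℝ} {σ : Fin N → ℂ}

theorem K_mu {K : ℝ} (hK : 0 < K) :
    K * (muR K R (uu w)).re = N * (av (uu w)).re - (N - K) / R := by
  have h1 : (K : ℂ) * muR K R (uu w) =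
      (N : ℂ) * av (uu w) - (((N - K) / R : ℝ) : ℂ) := by
    have hK0 : (K : ℂ) ≠ 0 := by exact_mod_cast hK.ne'
    unfold muR
    field_simp
  have h2 := congrArg Complex.re h1
  rw [Complex.re_ofReal_mul, Complex.sub_re, Complex.ofReal_re] at h2
  have h3 : ((N : ℂ) * av (uu w)).re = N * (av (uu w)).re := by
    have := Complex.re_ofReal_mul (N : ℝ) (av (uu w))
    push_cast at this
    exact this
  rw [h2, h3]

/-- `N = K (R - μ₁)` for `K = N M*` -/
theorem N_eq (hR : 1 < R) (hK : 0 < NM N w R) :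
    (N : ℝ) = NM N w R * (R - (muR (NM N w R) R (uu w)).re) := by
  have h1 := K_mu (N := N) (w := w) (R := R) hK
  obtain ⟨K, hKe⟩ : ∃ K, K = NM N w R := ⟨_, rfl⟩
  rw [← hKe] at h1 hK ⊢
  obtain ⟨m, hm⟩ : ∃ m, m = (muR K R (uu w)).re := ⟨_, rfl⟩
  rw [← hm] at h1 ⊢
  have hb : 0 < R ^ 2 - 1 := by nlinarith
  have hR0 : 0 < R := by linarith
  unfold NM at hKe
  rw [eq_div_iff hb.ne'] at hKe
  have h2 : R * (K * m) = R * (N * (av (uu w)).re) - (N - K) := by
    rw [h1]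
    field_simp
  have h3 : R * N = R * (K * (R - m)) := by nlinarith
  exact mul_left_cancel₀ hR0.ne' h3

theorem mu_le (hC : Cfg2 N z w R σ) (hR : 29 / 12 ≤ R) (hK : 0 < NM N w R) :
    |(muR (NM N w R) R (uu w)).re| ≤ 1 := by
  have hN : 1 ≤ N := by linarith [hC.hN]
  have hu : ∀ k, ‖uu w k‖ ≤ 1 := fun k => hC.u_le k
  exact (Complex.abs_re_le_norm _).trans
    (muR_norm_le hK hN (by linarith) hu (cost_sum hC hR))

/-- the bound at one point -/
theorem pt (hC : Cfg2 N z w R σ) (hR : 29 / 12 ≤ R) (hK : 0 < NM N w R) {x G h : ℝ}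
    (hx1 : 1 < x) (hx2 : x ≤ 3 * R / 5) (hG1 : Real.log ((R * x - 1) / (R - x)) ≤ G)
    (hG2 : R * (x ^ 2 - 1) / ((R - x) * (R * x - 1)) ≤ G)
    (h1 : h + (G - Real.log ((R * x - 1) / (R - x))) ≤
      (R - 1 - (muR (NM N w R) R (uu w)).re) * (-Real.log (1 - x / R)) -
        Real.log (gg (muR (NM N w R) R (uu w)).re x) / 2) :
    ‖qq (uu w) x‖ ≤ Real.exp (-(NM N w R * h)) := by
  have h2 := H74.TailQ.tailq hC hR hK le_rfl hx1 hx2 hG1 hG2
  refine h2.trans (Real.exp_le_exp.2 ?_)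
  have h3 := N_eq (N := N) (w := w) (R := R) (by linarith) hK
  obtain ⟨K, hKe⟩ : ∃ K, K = NM N w R := ⟨_, rfl⟩
  rw [← hKe] at h3 hK h1 ⊢
  obtain ⟨m, hm⟩ : ∃ m, m = (muR K R (uu w)).re := ⟨_, rfl⟩
  rw [← hm] at h1 h3 ⊢
  have h4 : ((N : ℝ) - K) = K * (R - 1 - m) := by rw [h3]; ring
  rw [h4]
  have h5 := mul_le_mul_of_nonneg_left h1 hK.le
  nlinarith

/-- `(N + 1)/R` in terms of `K`, for `R ≥ r₀` -/
theorem nf_le (hC : Cfg2 N z w R σ) (hR : 29 / 12 ≤ R) (hK : 24 < NM N w R) {r₀ : ℝ}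
    (h0 : 0 < r₀) (hr : r₀ ≤ R) :
    ((N : ℝ) + 1) / R ≤ NM N w R * (1 + (25 / 24) / r₀) := by
  have hK0 : 0 < NM N w R := by linarith
  have h3 := N_eq (N := N) (w := w) (R := R) (by linarith) hK0
  have h4 := abs_le.1 (mu_le hC hR hK0)
  obtain ⟨K, hKe⟩ : ∃ K, K = NM N w R := ⟨_, rfl⟩
  rw [← hKe] at h3 h4 hK hK0 ⊢
  have hR0 : 0 < R := by linarith
  have h5 : (N : ℝ) ≤ K * (R + 1) := by
    rw [h3]
    apply mul_le_mul_of_nonneg_left _ hK0.le
    linarith [h4.1]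
  have h6 : ((N : ℝ) + 1) / R ≤ (K * (R + 1) + K / 24) / R :=
    div_le_div_of_nonneg_right (by linarith) hR0.le
  refine h6.trans ?_
  have h7 : (K * (R + 1) + K / 24) / R = K * (1 + (25 / 24) / R) := by
    field_simp
    ring
  rw [h7]
  apply mul_le_mul_of_nonneg_left _ hK0.le
  have : (25 / 24 : ℝ) / R ≤ (25 / 24) / r₀ := div_le_div_of_nonneg_left (by norm_num) h0 hr
  linarith

theorem exp8 : Real.exp (-8) ≤ 34 / 100000 := by
  rw [Real.exp_neg, inv_le_comm₀ (Real.exp_pos _) (by norm_num)]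
  have h1 : Real.exp 8 = Real.exp 1 ^ 8 := by
    rw [← Real.exp_nat_mul]
    norm_num
  rw [h1]
  have h2 := pow_le_pow_left₀ (by norm_num) Real.exp_one_gt_d9.le 8
  refine le_trans ?_ h2
  norm_num

theorem exp72 : Real.exp (-(36 / 5)) ≤ 3 / 4000 := by
  rw [Real.exp_neg, inv_le_comm₀ (Real.exp_pos _) (by norm_num)]
  have h1 : Real.exp (36 / 5) ^ 5 = Real.exp 1 ^ 36 := by
    rw [← Real.exp_nat_mul, ← Real.exp_nat_mul]
    norm_num
  have h2 := pow_le_pow_left₀ (by norm_num) Real.exp_one_gt_d9.le 36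
  rw [← h1] at h2
  by_contra hcon
  push Not at hcon
  have h3 := pow_lt_pow_left₀ hcon (Real.exp_pos _).le (show 5 ≠ 0 by norm_num)
  have h4 := lt_of_le_of_lt h2 h3
  norm_num at h4

theorem Kexp {K : ℝ} (hK : 24 ≤ K) : K * Real.exp (-(K * (1 / 3))) ≤ 24 * (34 / 100000) := by
  have h1 : K / 24 ≤ Real.exp ((K - 24) / 3) := by
    have h2 := Real.add_one_le_exp ((K - 24) / 3)
    have h3 : K / 24 ≤ (K - 24) / 3 + 1 := by linarith
    linarith
  have h2 : Real.exp (-(K * (1 / 3))) = Real.exp (-8) * (Real.exp ((K - 24) / 3))⁻¹ := by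
    rw [← Real.exp_neg, ← Real.exp_add]
    congr 1
    ring
  have hK0 : 0 < K := by linarith
  have h3 : K * (Real.exp ((K - 24) / 3))⁻¹ ≤ 24 := by
    rw [← div_eq_mul_inv, div_le_iff₀ (Real.exp_pos _)]
    linarith
  calc K * Real.exp (-(K * (1 / 3))) = Real.exp (-8) * (K * (Real.exp ((K - 24) / 3))⁻¹) := by
        rw [h2]; ring
    _ ≤ 34 / 100000 * 24 := mul_le_mul exp8 h3 (by positivity) (by norm_num)
    _ = _ := by ring

/-- cases (b), (c) -/
theorem seg_bc (hC : Cfg2 N z w R σ) (hR : 29 / 12 ≤ R) (hR4 : R ≤ 4) (hK : 24 < NM N w R) :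
    ((N : ℝ) + 1) / R * ‖∫ x in (1 : ℝ)..(17 * R / 32), qq (uu w) x‖ ≤ 125 / 10000 := by
  have hR0 : 0 < R := by linarith
  have hK0 : 0 < NM N w R := by linarith
  have hm := mu_le hC hR hK0
  have h1 : ∀ x ∈ Set.uIoc (1 : ℝ) (17 * R / 32), ‖qq (uu w) x‖ ≤
      Real.exp (-(NM N w R * (1 / 3))) := by
    intro x hx
    rw [Set.uIoc_of_le (by linarith)] at hx
    obtain ⟨hx1, hx2⟩ := hx
    rcases le_total R 3 with h3 | h3
    · refine pt hC hR hK0 hx1 (by linarith) (G := Real.log ((R * x - 1) / (R - x)) + (x - 1) / 4)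
        (by linarith) (gam_c hR h3 hx1.le hx2) ?_
      have := case_c hR h3 hx1 hx2 hm
      linarith
    · refine pt hC hR hK0 hx1 (by linarith) le_rfl
        (H74.TailQ.gam_le h3 hx1.le (by linarith)) ?_
      have := case_b h3 hR4 hx1 hx2 hm
      linarith
  have h2 := intervalIntegral.norm_integral_le_of_norm_le_const h1
  rw [abs_of_nonneg (by linarith)] at h2
  have hE := Kexp hK.le
  have hE0 : 0 ≤ NM N w R * Real.exp (-(NM N w R * (1 / 3))) := by positivity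
  obtain ⟨K, hKe⟩ : ∃ K, K = NM N w R := ⟨_, rfl⟩
  rcases le_total R 3 with h3 | h3
  · have h5 := nf_le hC hR hK (r₀ := 29 / 12) (by norm_num) hR
    calc ((N : ℝ) + 1) / R * ‖∫ x in (1 : ℝ)..(17 * R / 32), qq (uu w) x‖
        ≤ (NM N w R * (1 + (25 / 24) / (29 / 12))) *
          (Real.exp (-(NM N w R * (1 / 3))) * (17 * R / 32 - 1)) :=
          mul_le_mul h5 h2 (norm_nonneg _) (by positivity)
      _ = (1 + (25 / 24) / (29 / 12)) * (NM N w R * Real.exp (-(NM N w R * (1 / 3)))) *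
          (17 * R / 32 - 1) := by ring
      _ ≤ (1 + (25 / 24) / (29 / 12)) * (24 * (34 / 100000)) * (19 / 32) := by
          apply mul_le_mul _ (by linarith) (by linarith) (by positivity)
          exact mul_le_mul_of_nonneg_left hE (by norm_num)
      _ ≤ _ := by norm_num
  · have h5 := nf_le hC hR hK (r₀ := 3) (by norm_num) h3
    calc ((N : ℝ) + 1) / R * ‖∫ x in (1 : ℝ)..(17 * R / 32), qq (uu w) x‖
        ≤ (NM N w R * (1 + (25 / 24) / 3)) *
          (Real.exp (-(NM N w R * (1 / 3))) * (17 * R / 32 - 1)) :=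
          mul_le_mul h5 h2 (norm_nonneg _) (by positivity)
      _ = (1 + (25 / 24) / 3) * (NM N w R * Real.exp (-(NM N w R * (1 / 3)))) *
          (17 * R / 32 - 1) := by ring
      _ ≤ (1 + (25 / 24) / 3) * (24 * (34 / 100000)) * (9 / 8) := by
          apply mul_le_mul _ (by linarith) (by linarith) (by positivity)
          exact mul_le_mul_of_nonneg_left hE (by norm_num)
      _ ≤ _ := by norm_num

/-- case (a) -/
theorem seg_a (hC : Cfg2 N z w R σ) (hR : 4 ≤ R) (hK : 24 < NM N w R) {y : ℝ} (hy1 : 1 ≤ y)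
    (hy2 : y ≤ 3 * R / 5) :
    ((N : ℝ) + 1) / R * ‖∫ x in (1 : ℝ)..y, qq (uu w) x‖ ≤ 5 / 1000 := by
  have hR0 : 0 < R := by linarith
  have hR' : 29 / 12 ≤ R := by linarith
  have hK0 : 0 < NM N w R := by linarith
  have hm := mu_le hC hR' hK0
  have h5 := nf_le hC hR' hK (r₀ := 4) (by norm_num) hR
  have hpt : ∀ x ∈ Set.Ioc (1 : ℝ) y, ‖qq (uu w) x‖ ≤
      Real.exp (-(NM N w R * (3 / 10 + (x - 1) / 5))) := by
    intro x hx
    refine pt hC hR' hK0 hx.1 (by linarith [hx.2]) le_rfl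
        (H74.TailQ.gam_le (by linarith) hx.1.le (by linarith [hx.2])) ?_
    have := case_a hR hx.1 (by linarith [hx.2]) hm
    linarith
  obtain ⟨K, hKe⟩ : ∃ K, K = NM N w R := ⟨_, rfl⟩
  rw [← hKe] at hpt h5 hK hK0
  have hcont : Continuous fun x : ℝ => Real.exp (-(K * (3 / 10 + (x - 1) / 5))) := by fun_prop
  have h1 : ‖∫ x in (1 : ℝ)..y, qq (uu w) x‖ ≤
      ∫ x in (1 : ℝ)..y, Real.exp (-(K * (3 / 10 + (x - 1) / 5))) :=
    intervalIntegral.norm_integral_le_of_norm_le hy1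
      (Filter.Eventually.of_forall fun x hx => hpt x hx) (hcont.intervalIntegrable _ _)
  have h2 : ∫ x in (1 : ℝ)..y, Real.exp (-(K * (3 / 10 + (x - 1) / 5))) =
      -(5 / K) * Real.exp (-(K * (3 / 10 + (y - 1) / 5))) -
        -(5 / K) * Real.exp (-(K * (3 / 10 + (1 - 1) / 5))) := by
    apply intervalIntegral.integral_eq_sub_of_hasDerivAt (f := fun x : ℝ =>
      -(5 / K) * Real.exp (-(K * (3 / 10 + (x - 1) / 5))))
    · intro x _
      have d1 : HasDerivAt (fun x : ℝ => -(K * (3 / 10 + (x - 1) / 5))) (-(K * (1 / 5))) x :=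
        ((((hasDerivAt_id x).sub_const 1).div_const 5).const_add (3 / 10)).const_mul K |>.neg
      refine (d1.exp.const_mul (-(5 / K))).congr_deriv ?_
      field_simp
    · exact hcont.intervalIntegrable _ _
  have h3 : ‖∫ x in (1 : ℝ)..y, qq (uu w) x‖ ≤ 5 / K * (3 / 4000) := by
    rw [h2] at h1
    have h4 : Real.exp (-(K * (3 / 10 + (1 - 1) / 5))) ≤ 3 / 4000 := by
      refine le_trans (Real.exp_le_exp.2 ?_) exp72
      linarith
    have h6 : 0 ≤ 5 / K * Real.exp (-(K * (3 / 10 + (y - 1) / 5))) := by positivity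
    have h7 : 5 / K * Real.exp (-(K * (3 / 10 + (1 - 1) / 5))) ≤ 5 / K * (3 / 4000) :=
      mul_le_mul_of_nonneg_left h4 (by positivity)
    linarith
  calc ((N : ℝ) + 1) / R * ‖∫ x in (1 : ℝ)..y, qq (uu w) x‖
      ≤ (K * (1 + (25 / 24) / 4)) * (5 / K * (3 / 4000)) :=
        mul_le_mul h5 h3 (norm_nonneg _) (by positivity)
    _ = (1 + (25 / 24) / 4) * 5 * (3 / 4000) := by
        field_simp
    _ ≤ _ := by norm_num

theorem vt24 : H21.vtk 424 34 34 (fun V => Nat.ble V 500000000) = true := by decide +kernel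

theorem nd24 : H11.needOK 34 29 12 1 1000 = true := by decide +kernel

/-- **TAIL24** -/
theorem tail24 (hC : Cfg2 N z w R σ) (hR : 29 / 12 ≤ R) (hK : 24 < NM N w R) :
    (((N : ℝ) + 1) / R) * ‖∫ x in (0 : ℝ)..1, qq (uu w) x‖ < 1 / 50 := by
  have hR0 : 0 < R := by linarith
  have hK0 : 0 < NM N w R := by linarith
  have hq : ∀ a b : ℝ, IntervalIntegrable (qq (uu w)) volume a b := fun a b =>
    (qq_cont _).intervalIntegrable a b
  have hNF : 0 ≤ ((N : ℝ) + 1) / R := by positivity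
  rcases le_or_gt 6 R with h6 | h6
  · have h1 := H11.need6 hC h6
    have h2 := seg_a hC (by linarith) hK (y := 3 / 5 * R) (by linarith) (by linarith)
    have h3 : ∫ x in (0 : ℝ)..1, qq (uu w) x = (∫ x in (0 : ℝ)..(3 / 5 * R), qq (uu w) x) -
        ∫ x in (1 : ℝ)..(3 / 5 * R), qq (uu w) x := by
      rw [← intervalIntegral.integral_add_adjacent_intervals (hq 0 1) (hq 1 (3 / 5 * R))]
      ring
    have h4 := norm_sub_le (∫ x in (0 : ℝ)..(3 / 5 * R), qq (uu w) x)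
      (∫ x in (1 : ℝ)..(3 / 5 * R), qq (uu w) x)
    rw [← h3] at h4
    have h5 := mul_le_mul_of_nonneg_left h4 hNF
    rw [mul_add] at h5
    linarith
  · have hN : 34 ≤ N := by
      have h3 := N_eq (N := N) (w := w) (R := R) (by linarith) hK0
      have h4 := abs_le.1 (mu_le hC hR hK0)
      have h5 : (34 : ℝ) ≤ N := by
        rw [h3]
        have h6 : (17 / 12 : ℝ) ≤ R - (muR (NM N w R) R (uu w)).re := by linarith [h4.2]
        nlinarith
      exact_mod_cast h5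
    have h1 := H11.need_ok hC nd24 hN (by norm_num; exact hR)
    obtain ⟨V, hV, hV2⟩ := H21.vtk_cfg vt24 (by norm_num) (by norm_num) (by norm_num) (by norm_num)
    have hV' : (V : ℝ) ≤ 500000000 := by exact_mod_cast Nat.le_of_ble_eq_true hV
    have h7 := hV2 N z w R σ hC hN (by norm_num; linarith) (17 * R / 32)
      (by push_cast; linarith) (by linarith)
    have h8 : (V : ℝ) / 2 ^ 40 ≤ 1 / 2000 := by
      rw [div_le_iff₀ (by positivity)]
      norm_num
      linarith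
    have h2 : ((N : ℝ) + 1) / R * ‖∫ x in (1 : ℝ)..(17 * R / 32), qq (uu w) x‖ ≤
        125 / 10000 := by
      rcases le_total R 4 with h4 | h4
      · exact seg_bc hC hR h4 hK
      · exact (seg_a hC h4 hK (by linarith) (by linarith)).trans (by norm_num)
    have h3 : ∫ x in (0 : ℝ)..1, qq (uu w) x = (∫ x in (0 : ℝ)..R, qq (uu w) x) -
        (∫ x in (1 : ℝ)..(17 * R / 32), qq (uu w) x) - ∫ x in (17 * R / 32)..R, qq (uu w) x := by
      rw [← intervalIntegral.integral_add_adjacent_intervals (hq 0 1) (hq 1 R),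
        ← intervalIntegral.integral_add_adjacent_intervals (hq 1 (17 * R / 32))
          (hq (17 * R / 32) R)]
      ring
    have h4 := norm_sub_le ((∫ x in (0 : ℝ)..R, qq (uu w) x) -
        (∫ x in (1 : ℝ)..(17 * R / 32), qq (uu w) x)) (∫ x in (17 * R / 32)..R, qq (uu w) x)
    have h5 := norm_sub_le (∫ x in (0 : ℝ)..R, qq (uu w) x)
      (∫ x in (1 : ℝ)..(17 * R / 32), qq (uu w) x)
    have h9 := intervalIntegral.norm_integral_le_integral_norm (f := qq (uu w)) (μ := volume)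
      (show 17 * R / 32 ≤ R by linarith)
    rw [← h3] at h4
    have h10 : ‖∫ x in (0 : ℝ)..1, qq (uu w) x‖ ≤ ‖∫ x in (0 : ℝ)..R, qq (uu w) x‖ +
        ‖∫ x in (1 : ℝ)..(17 * R / 32), qq (uu w) x‖ + ∫ x in (17 * R / 32)..R, ‖qq (uu w) x‖ := by
      linarith
    have h11 := mul_le_mul_of_nonneg_left h10 hNF
    rw [mul_add, mul_add] at h11
    norm_num at h1
    linarith

end Pool.Agent.Lib.MP_af3a4a_an.P1.H32.Tail24
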