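import Pool.Agent.Lib.MP_af3a4a_an.P1.CHK.H80.F5
import Mathlib.Analysis.Complex.Schwarz

/-!
# SWEEP, part 1: Schwarz - Pick at two points, Harnack for the Moebius functions (council 2, helper32)
-/

namespace Pool.Agent.Lib.MP_af3a4a_an.P1.H32

open Finset MeasureTheory ComplexConjugate Metric Set Filter Topology
open Pool.Agent.Lib.MP_af3a4a_an.SV (uu av sq EE)
open Pool.Agent.Lib.MP_af3a4a_an.P1.H80
open Pool.Agent.Lib.MP_af3a4a_an.P1.CHK.H80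

theorem pick_alg {a b : ℂ} (ha : ‖a‖ ≤ 1) (hb : ‖b‖ ≤ 1) : ‖a - b‖ ≤ ‖1 - conj b * a‖ := by
  have h : ‖a - b‖ ^ 2 ≤ ‖1 - conj b * a‖ ^ 2 := by
    have e : ‖1 - conj b * a‖ ^ 2 - ‖a - b‖ ^ 2 = (1 - ‖a‖ ^ 2) * (1 - ‖b‖ ^ 2) := by
      rw [norm_sq_re_im, norm_sq_re_im, norm_sq_re_im, norm_sq_re_im]
      simp only [Complex.sub_re, Complex.sub_im, Complex.mul_re, Complex.mul_im, Complex.one_re,
        Complex.one_im, Complex.conj_re, Complex.conj_im]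
      ring
    have : 0 ≤ (1 - ‖a‖ ^ 2) * (1 - ‖b‖ ^ 2) :=
      mul_nonneg (by nlinarith [norm_nonneg a]) (by nlinarith [norm_nonneg b])
    linarith
  exact (pow_le_pow_iff_left₀ (norm_nonneg _) (norm_nonneg _) two_ne_zero).1 h

/-- Schwarz - Pick for `φ(z)/z` at the points `0` and `z` -/
theorem pick_two {φ : ℂ → ℂ} (hd : DifferentiableOn ℂ φ (ball 0 1))
    (hm : MapsTo φ (ball 0 1) (closedBall 0 1)) (h0 : φ 0 = 0) {z : ℂ} (hz : ‖z‖ < 1) :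
    ‖dslope φ 0 0‖ ≤ 1 ∧
    ‖dslope φ 0 z - dslope φ 0 0‖ ≤ ‖z‖ * ‖1 - conj (dslope φ 0 0) * dslope φ 0 z‖ := by
  set S := dslope φ 0 with hS
  have hSd : DifferentiableOn ℂ S (ball 0 1) :=
    (Complex.differentiableOn_dslope (ball_mem_nhds 0 one_pos)).2 hd
  have hS1 : ∀ w, ‖w‖ < 1 → ‖S w‖ ≤ 1 := by
    intro w hw
    have := Complex.norm_dslope_le_div_of_mapsTo_ball (R₁ := 1) (R₂ := 1) hd (by rwa [h0])
      (mem_ball_zero_iff.2 hw)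
    simpa using this
  have h00 : ‖S 0‖ ≤ 1 := hS1 0 (by simp)
  refine ⟨h00, ?_⟩
  have hkey : ∀ s : ℝ, 0 ≤ s → s < 1 →
      ‖(s : ℂ) * S z - s * S 0‖ ≤ ‖z‖ * ‖1 - conj ((s : ℂ) * S 0) * (s * S z)‖ := by
    intro s hs0 hs1
    have hsn : ∀ w, ‖w‖ < 1 → ‖(s : ℂ) * S w‖ ≤ s := by
      intro w hw
      rw [norm_mul, Complex.norm_real, Real.norm_of_nonneg hs0]
      exact mul_le_of_le_one_right hs0 (hS1 w hw)
    have hden : ∀ w, ‖w‖ < 1 → 1 - conj ((s : ℂ) * S 0) * (s * S w) ≠ 0 := by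
      intro w hw h
      have h1 : ‖conj ((s : ℂ) * S 0) * (s * S w)‖ < 1 := by
        rw [norm_mul, Complex.norm_conj]
        have a1 := hsn w hw
        have a2 := hsn 0 (by simp)
        calc ‖(s : ℂ) * S 0‖ * ‖(s : ℂ) * S w‖ ≤ s * s :=
              mul_le_mul a2 a1 (norm_nonneg _) hs0
          _ < 1 := by nlinarith
      have h2 : conj ((s : ℂ) * S 0) * (s * S w) = 1 := by linear_combination -h
      rw [h2, norm_one] at h1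
      exact lt_irrefl _ h1
    have hT := Complex.norm_le_norm_of_mapsTo_ball
      (f := fun w => ((s : ℂ) * S w - s * S 0) / (1 - conj ((s : ℂ) * S 0) * (s * S w)))
      (R := 1) (z := z) ?_ ?_ ?_ hz
    · rw [norm_div, div_le_iff₀ (norm_pos_iff.2 (hden z hz))] at hT
      exact hT
    · apply DifferentiableOn.div
      · exact (hSd.const_mul _).sub_const _
      · exact ((hSd.const_mul _).const_mul _).const_sub 1
      · intro w hw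
        exact hden w (mem_ball_zero_iff.1 hw)
    · intro w hw
      have hw' := mem_ball_zero_iff.1 hw
      rw [mem_closedBall_zero_iff, norm_div, div_le_one (norm_pos_iff.2 (hden w hw'))]
      exact pick_alg ((hsn w hw').trans hs1.le) ((hsn 0 (by simp)).trans hs1.le)
    · simp
  -- the limit `s → 1`
  have t1 : Tendsto (fun s : ℝ => ‖(s : ℂ) * S z - s * S 0‖) (𝓝[<] 1)
      (𝓝 ‖((1 : ℝ) : ℂ) * S z - ((1 : ℝ) : ℂ) * S 0‖) := by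
    have : Continuous (fun s : ℝ => ‖(s : ℂ) * S z - s * S 0‖) := by fun_prop
    exact (this.tendsto 1).mono_left nhdsWithin_le_nhds
  have t2 : Tendsto (fun s : ℝ => ‖z‖ * ‖1 - conj ((s : ℂ) * S 0) * (s * S z)‖) (𝓝[<] 1)
      (𝓝 (‖z‖ * ‖1 - conj (((1 : ℝ) : ℂ) * S 0) * (((1 : ℝ) : ℂ) * S z)‖)) := by
    have : Continuous (fun s : ℝ => ‖z‖ * ‖1 - conj ((s : ℂ) * S 0) * (s * S z)‖) := by
      simp only [map_mul, Complex.conj_ofReal]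
      fun_prop
    exact (this.tendsto 1).mono_left nhdsWithin_le_nhds
  have t3 := le_of_tendsto_of_tendsto t1 t2 (by
    have : Set.Ioo (0 : ℝ) 1 ∈ 𝓝[<] (1 : ℝ) := Ioo_mem_nhdsLT (by norm_num)
    filter_upwards [this] with s hs
    exact hkey s hs.1.le hs.2)
  simpa using t3

/-! ### Harnack -/

/-- `1 - t(u) = 2 ρ/(1 + ρ)`, `ρ = |R u - 1|/|R - u|` -/
noncomputable def om (R : ℝ) (u : ℂ) : ℝ :=
  2 * ‖(R : ℂ) * u - 1‖ / (‖(R : ℂ) - u‖ + ‖(R : ℂ) * u - 1‖)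

theorem om_inv (R : ℝ) {w : ℂ} (hw : w ≠ 0) :
    om R w⁻¹ = 2 * ‖w - R‖ / (‖w - R‖ + ‖(R : ℂ) * w - 1‖) := by
  have hn : 0 < ‖w‖ := norm_pos_iff.2 hw
  have e1 : ‖(R : ℂ) * w⁻¹ - 1‖ = ‖w - R‖ / ‖w‖ := by
    rw [← norm_div, ← norm_neg]
    congr 1
    field_simp
    ring
  have e2 : ‖(R : ℂ) - w⁻¹‖ = ‖(R : ℂ) * w - 1‖ / ‖w‖ := by
    rw [← norm_div]
    congr 1
    field_simp
  unfold om
  rw [e1, e2]
  field_simp
  ring

theorem norm_sub_pos {R : ℝ} (hR : 1 < R) {u : ℂ} (hu : ‖u‖ ≤ 1) : 0 < ‖(R : ℂ) - u‖ := by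
  rw [norm_pos_iff]
  intro h
  have : u = (R : ℂ) := by linear_combination -h
  rw [this, Complex.norm_real, Real.norm_of_nonneg (by linarith)] at hu
  linarith

theorem norm_le_norm_R {R : ℝ} (hR : 1 < R) {u : ℂ} (hu : ‖u‖ ≤ 1) :
    ‖(R : ℂ) * u - 1‖ ≤ ‖(R : ℂ) - u‖ := by
  have h : ‖(R : ℂ) * u - 1‖ ^ 2 ≤ ‖(R : ℂ) - u‖ ^ 2 := by
    have e : ‖(R : ℂ) - u‖ ^ 2 - ‖(R : ℂ) * u - 1‖ ^ 2 = (R ^ 2 - 1) * (1 - ‖u‖ ^ 2) := by
      rw [norm_sq_re_im, norm_sq_re_im, norm_sq_re_im]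
      simp only [Complex.sub_re, Complex.sub_im, Complex.mul_re, Complex.mul_im, Complex.one_re,
        Complex.one_im, Complex.ofReal_re, Complex.ofReal_im]
      ring
    have : 0 ≤ (R ^ 2 - 1) * (1 - ‖u‖ ^ 2) :=
      mul_nonneg (by nlinarith) (by nlinarith [norm_nonneg u])
    linarith
  exact (pow_le_pow_iff_left₀ (norm_nonneg _) (norm_nonneg _) two_ne_zero).1 h

/-- `Re (2/(1 - v) - 1) ≥ 0` for `|v| < 1` -/
theorem re_moeb_nonneg {v : ℂ} (hv : ‖v‖ < 1) : 0 ≤ (2 * (1 - v)⁻¹ - 1).re := by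
  have hne : 1 - v ≠ 0 := by
    intro h
    have : v = 1 := by linear_combination -h
    rw [this, norm_one] at hv
    exact lt_irrefl _ hv
  have h1 : 0 < ‖1 - v‖ ^ 2 := by positivity
  have e : (2 * (1 - v)⁻¹ - 1).re = (1 - ‖v‖ ^ 2) / ‖1 - v‖ ^ 2 := by
    rw [Complex.sub_re, Complex.one_re]
    have e2 : (2 * (1 - v)⁻¹).re = 2 * ((1 - v)⁻¹).re := by
      have : (2 : ℂ) = ((2 : ℝ) : ℂ) := by norm_num
      rw [this, Complex.re_ofReal_mul]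
    rw [e2, Complex.inv_re, Complex.normSq_eq_norm_sq, eq_div_iff h1.ne']
    field_simp
    rw [norm_sq_re_im, norm_sq_re_im]
    simp only [Complex.sub_re, Complex.sub_im, Complex.one_re, Complex.one_im]
    ring
  rw [e]
  apply div_nonneg _ h1.le
  nlinarith [norm_nonneg v]

/-- Harnack, from the pseudo-hyperbolic distance in the half plane -/
theorem harnack_aux {A B : ℂ} {p r : ℝ} (hp : 0 < p) (hr : 0 ≤ r) (hrp : r ≤ p) (hA : 0 ≤ A.re)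
    (hB : 0 ≤ B.re) (h : p * ‖A - B‖ ≤ r * ‖A + conj B‖) : (p - r) * B.re ≤ (p + r) * A.re := by
  have h2 : (p * ‖A - B‖) ^ 2 ≤ (r * ‖A + conj B‖) ^ 2 := pow_le_pow_left₀ (by positivity) h 2
  rw [mul_pow, mul_pow, norm_sq_re_im, norm_sq_re_im] at h2
  simp only [Complex.sub_re, Complex.sub_im, Complex.add_re, Complex.add_im, Complex.conj_re,
    Complex.conj_im] at h2
  have h3 : r ^ 2 ≤ p ^ 2 := pow_le_pow_left₀ hr hrp 2
  have h4 : 0 ≤ (p ^ 2 - r ^ 2) * (A.im - B.im) ^ 2 :=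
    mul_nonneg (by linarith) (sq_nonneg _)
  have h5 : (p * (B.re - A.re)) ^ 2 ≤ (r * (A.re + B.re)) ^ 2 := by
    have e : r ^ 2 * ((A.re + B.re) ^ 2 + (A.im + -B.im) ^ 2) =
        (r * (A.re + B.re)) ^ 2 + r ^ 2 * (A.im - B.im) ^ 2 := by ring
    rw [e] at h2
    nlinarith
  have h6 : p * (B.re - A.re) ≤ r * (A.re + B.re) := by
    by_contra hcon
    push Not at hcon
    have h7 : 0 ≤ r * (A.re + B.re) := by positivity
    nlinarith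
  linarith

/-- **Harnack** for `2/(1 - ζ u) - 1` between `u` and `1/R` -/
theorem harnack {R : ℝ} (hR : 1 < R) {u : ℂ} (hu : ‖u‖ ≤ 1) {ζ : ℂ} (hζ : ‖ζ‖ < 1) :
    (1 - om R u) * (2 * (1 - ζ * ((1 / R : ℝ) : ℂ))⁻¹ - 1).re ≤ (2 * (1 - ζ * u)⁻¹ - 1).re := by
  have hR0 : 0 < R := by linarith
  have hRc : (R : ℂ) ≠ 0 := by exact_mod_cast hR0.ne'
  have hp := norm_sub_pos hR hu
  have hr : 0 ≤ ‖(R : ℂ) * u - 1‖ := norm_nonneg _
  have hrp := norm_le_norm_R hR hu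
  have hv1 : ‖ζ * u‖ < 1 := by
    rw [norm_mul]
    nlinarith [norm_nonneg ζ, norm_nonneg u]
  have hv2 : ‖ζ * ((1 / R : ℝ) : ℂ)‖ < 1 := by
    rw [norm_mul, Complex.norm_real, Real.norm_of_nonneg (by positivity)]
    have : 1 / R ≤ 1 := by
      rw [div_le_one hR0]; exact hR.le
    have h3 : 0 ≤ 1 / R := by positivity
    nlinarith [norm_nonneg ζ]
  have hne1 : 1 - ζ * u ≠ 0 := by
    intro h
    have : ζ * u = 1 := by linear_combination -h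
    rw [this, norm_one] at hv1
    exact lt_irrefl _ hv1
  have hne2 : 1 - ζ * ((1 / R : ℝ) : ℂ) ≠ 0 := by
    intro h
    have : ζ * ((1 / R : ℝ) : ℂ) = 1 := by linear_combination -h
    rw [this, norm_one] at hv2
    exact lt_irrefl _ hv2
  have hne3 : 1 - conj ζ * ((1 / R : ℝ) : ℂ) ≠ 0 := by
    intro h
    apply hne2
    have := congrArg conj h
    simpa using this
  have hA := re_moeb_nonneg hv1
  have hB := re_moeb_nonneg hv2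
  set A := 2 * (1 - ζ * u)⁻¹ - 1 with hAdef
  set B := 2 * (1 - ζ * ((1 / R : ℝ) : ℂ))⁻¹ - 1 with hBdef
  -- the pseudo-hyperbolic distance
  have e1 : ‖A - B‖ = 2 * ‖ζ‖ * ‖(R : ℂ) * u - 1‖ / (R * ‖1 - ζ * u‖ * ‖1 - ζ * ((1 / R : ℝ) : ℂ)‖) := by
    have : A - B = 2 * ζ * ((R : ℂ) * u - 1) / (R * (1 - ζ * u) * (1 - ζ * ((1 / R : ℝ) : ℂ))) := by
      rw [hAdef, hBdef, eq_div_iff (mul_ne_zero (mul_ne_zero hRc hne1) hne2)]
      have a1 : (1 - ζ * u)⁻¹ * (1 - ζ * u) = 1 := inv_mul_cancel₀ hne1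
      have a2 : (1 - ζ * ((1 / R : ℝ) : ℂ))⁻¹ * (1 - ζ * ((1 / R : ℝ) : ℂ)) = 1 :=
        inv_mul_cancel₀ hne2
      have a3 : (R : ℂ) * ((1 / R : ℝ) : ℂ) = 1 := by
        push_cast
        field_simp
      linear_combination (2 * R * (1 - ζ * ((1 / R : ℝ) : ℂ))) * a1 -
        (2 * R * (1 - ζ * u)) * a2 - 2 * ζ * a3
    rw [this, norm_div, norm_mul, norm_mul, norm_mul, norm_mul, Complex.norm_real,
      Real.norm_of_nonneg hR0.le]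
    simp
  have e2 : ‖A + conj B‖ = 2 * ‖(R : ℂ) - ((‖ζ‖ ^ 2 : ℝ) : ℂ) * u‖ /
      (R * ‖1 - ζ * u‖ * ‖1 - ζ * ((1 / R : ℝ) : ℂ)‖) := by
    have hcB : conj B = 2 * (1 - conj ζ * ((1 / R : ℝ) : ℂ))⁻¹ - 1 := by
      have h2 : conj (2 : ℂ) = 2 := by
        apply Complex.ext <;> simp
      rw [hBdef, map_sub, map_mul, map_inv₀, map_sub, map_mul, Complex.conj_ofReal, map_one, h2]
    have : A + conj B = 2 * ((R : ℂ) - ((‖ζ‖ ^ 2 : ℝ) : ℂ) * u) /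
        (R * (1 - ζ * u) * (1 - conj ζ * ((1 / R : ℝ) : ℂ))) := by
      rw [hcB, hAdef, eq_div_iff (mul_ne_zero (mul_ne_zero hRc hne1) hne3)]
      have a1 : (1 - ζ * u)⁻¹ * (1 - ζ * u) = 1 := inv_mul_cancel₀ hne1
      have a2 : (1 - conj ζ * ((1 / R : ℝ) : ℂ))⁻¹ * (1 - conj ζ * ((1 / R : ℝ) : ℂ)) = 1 :=
        inv_mul_cancel₀ hne3
      have a3 : (R : ℂ) * ((1 / R : ℝ) : ℂ) = 1 := by
        push_cast
        field_simp
      have a4 : ζ * conj ζ = ((‖ζ‖ ^ 2 : ℝ) : ℂ) := by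
        rw [Complex.mul_conj, Complex.normSq_eq_norm_sq]
      linear_combination (2 * R * (1 - conj ζ * ((1 / R : ℝ) : ℂ))) * a1 +
        (2 * R * (1 - ζ * u)) * a2 - 2 * ζ * conj ζ * u * a3 - 2 * u * a4
    have hn : ‖1 - conj ζ * ((1 / R : ℝ) : ℂ)‖ = ‖1 - ζ * ((1 / R : ℝ) : ℂ)‖ := by
      rw [← Complex.norm_conj]
      simp
    rw [this, norm_div, norm_mul, norm_mul, norm_mul, Complex.norm_real,
      Real.norm_of_nonneg hR0.le, hn]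
    simp
  have e3 : ‖ζ‖ * ‖(R : ℂ) - u‖ ≤ ‖(R : ℂ) - ((‖ζ‖ ^ 2 : ℝ) : ℂ) * u‖ := by
    have h : (‖ζ‖ * ‖(R : ℂ) - u‖) ^ 2 ≤ ‖(R : ℂ) - ((‖ζ‖ ^ 2 : ℝ) : ℂ) * u‖ ^ 2 := by
      have e : ‖(R : ℂ) - ((‖ζ‖ ^ 2 : ℝ) : ℂ) * u‖ ^ 2 - (‖ζ‖ * ‖(R : ℂ) - u‖) ^ 2 =
          (1 - ‖ζ‖ ^ 2) * (R ^ 2 - ‖ζ‖ ^ 2 * ‖u‖ ^ 2) := by
        rw [mul_pow, norm_sq_re_im ((R : ℂ) - ((‖ζ‖ ^ 2 : ℝ) : ℂ) * u), norm_sq_re_im ((R : ℂ) - u),
          norm_sq_re_im u]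
        simp only [Complex.sub_re, Complex.sub_im, Complex.mul_re, Complex.mul_im,
          Complex.ofReal_re, Complex.ofReal_im]
        ring
      have b1 : ‖ζ‖ ^ 2 ≤ 1 := pow_le_one₀ (norm_nonneg _) hζ.le
      have b2 : ‖u‖ ^ 2 ≤ 1 := pow_le_one₀ (norm_nonneg _) hu
      have b3 : ‖ζ‖ ^ 2 * ‖u‖ ^ 2 ≤ 1 := by
        calc ‖ζ‖ ^ 2 * ‖u‖ ^ 2 ≤ 1 * 1 := mul_le_mul b1 b2 (by positivity) (by norm_num)
          _ = 1 := by norm_num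
      have : 0 ≤ (1 - ‖ζ‖ ^ 2) * (R ^ 2 - ‖ζ‖ ^ 2 * ‖u‖ ^ 2) :=
        mul_nonneg (by linarith) (by nlinarith)
      linarith
    exact (pow_le_pow_iff_left₀ (by positivity) (norm_nonneg _) two_ne_zero).1 h
  have hmain := harnack_aux hp hr hrp hA hB (by
    rw [e1, e2, mul_div_assoc', mul_div_assoc']
    apply div_le_div_of_nonneg_right _ (by positivity)
    calc ‖(R : ℂ) - u‖ * (2 * ‖ζ‖ * ‖(R : ℂ) * u - 1‖) =
        2 * ‖(R : ℂ) * u - 1‖ * (‖ζ‖ * ‖(R : ℂ) - u‖) := by ring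
      _ ≤ 2 * ‖(R : ℂ) * u - 1‖ * ‖(R : ℂ) - ((‖ζ‖ ^ 2 : ℝ) : ℂ) * u‖ :=
          mul_le_mul_of_nonneg_left e3 (by positivity)
      _ = _ := by ring)
  have hs : 0 < ‖(R : ℂ) - u‖ + ‖(R : ℂ) * u - 1‖ := by linarith
  have e4 : 1 - om R u = (‖(R : ℂ) - u‖ - ‖(R : ℂ) * u - 1‖) /
      (‖(R : ℂ) - u‖ + ‖(R : ℂ) * u - 1‖) := by
    unfold om
    field_simp
    ring
  rw [e4, div_mul_eq_mul_div, div_le_iff₀ hs]
  linarith

end Pool.Agent.Lib.MP_af3a4a_an.P1.H32
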