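import Pool.Agent.Lib.MP_af3a4a_an.P1.H32.Pick

/-!
# SWEEP, part 2: the representation of `Q(x) = qq u x / (1 - x/R)^j` (council 2, helper32)

`N = K + j` points `|u_k| ≤ 1`, `R > 1`, `∑ om R (u k) ≤ K` (`om = 1 - t`), `μ = (N m - j/R)/K`:
the functional `(∑ f(u_k) - j f(1/R))/K` is positive on the functions `2/(1 - ζ u) - 1`, so
`Q` satisfies the same bounds as the product of `K` factors with mean `μ`.
-/

namespace Pool.Agent.Lib.MP_af3a4a_an.P1.H32

open Finset MeasureTheory ComplexConjugate Metric Set Filter Topology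
open Pool.Agent.Lib.MP_af3a4a_an.SV (uu av sq EE)
open Pool.Agent.Lib.MP_af3a4a_an.P1.H80
open Pool.Agent.Lib.MP_af3a4a_an.P1.CHK.H80

/-! ### abstract forms of helper80's two theorems -/

/-- the disc of `λ` from the quadratic inequality -/
theorem disc_abs {m P L : ℂ} (hm : ‖m‖ ≤ 1) {x : ℝ} (h0 : 0 ≤ x) (h1 : x < 1)
    (e1 : (x : ℂ) * L = P - 1) (hL0 : x = 0 → L = m)
    (h : (1 - x ^ 2) * ‖(1 - (x : ℂ) * m) * P - 1‖ ^ 2 ≤
      x ^ 2 * (1 - ‖m‖ ^ 2) * (2 * P.re - 1 - (1 - x ^ 2) * ‖P‖ ^ 2)) :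
    ‖L - lamc m x‖ ≤ x * (1 - ‖m‖ ^ 2) / ((1 - x ^ 2) * gg m.re x) := by
  have hm1 : |m.re| ≤ 1 := (Complex.abs_re_le_norm _).trans hm
  have hg := gg_pos hm1 (by linarith) h1
  have hx2 : 0 < 1 - x ^ 2 := by nlinarith
  rcases h0.eq_or_lt with hx | hx
  · rw [hL0 hx.symm]
    subst hx
    unfold lamc gg
    simp
  set G := (1 - x ^ 2) * gg m.re x with hG
  have hG0 : 0 < G := mul_pos hx2 hg
  set k := x ^ 2 * (1 - ‖m‖ ^ 2) with hk
  have hk0 : 0 ≤ k := mul_nonneg (sq_nonneg x) (by nlinarith [norm_nonneg m])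
  have key : ‖(G : ℂ) * P - (((1 - x ^ 2 : ℝ) : ℂ) * conj (1 - (x : ℂ) * m) + (k : ℂ))‖ ^ 2 ≤
      k ^ 2 := by
    have hmsq : ‖m‖ ^ 2 = m.re ^ 2 + m.im ^ 2 := norm_sq_re_im m
    have hexp : ‖(G : ℂ) * P - (((1 - x ^ 2 : ℝ) : ℂ) * conj (1 - (x : ℂ) * m) + (k : ℂ))‖ ^ 2 -
        k ^ 2 = G * ((1 - x ^ 2) * ‖(1 - (x : ℂ) * m) * P - 1‖ ^ 2 -
          k * (2 * P.re - 1 - (1 - x ^ 2) * ‖P‖ ^ 2)) := by
      rw [norm_sq_re_im, norm_sq_re_im, norm_sq_re_im P, hG, hk]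
      unfold gg
      rw [hmsq]
      simp only [Complex.sub_re, Complex.sub_im, Complex.mul_re, Complex.mul_im, Complex.one_re,
        Complex.one_im, Complex.ofReal_re, Complex.ofReal_im, Complex.add_re, Complex.add_im,
        Complex.conj_re, Complex.conj_im, map_sub, map_one, map_mul, Complex.conj_ofReal]
      ring
    have h2 : (1 - x ^ 2) * ‖(1 - (x : ℂ) * m) * P - 1‖ ^ 2 -
        k * (2 * P.re - 1 - (1 - x ^ 2) * ‖P‖ ^ 2) ≤ 0 := by
      have : k * (2 * P.re - 1 - (1 - x ^ 2) * ‖P‖ ^ 2) =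
          x ^ 2 * (1 - ‖m‖ ^ 2) * (2 * P.re - 1 - (1 - x ^ 2) * ‖P‖ ^ 2) := by rw [hk]
      linarith
    have h3 := mul_nonpos_of_nonneg_of_nonpos hG0.le h2
    linarith
  have key2 : ‖(G : ℂ) * P - (((1 - x ^ 2 : ℝ) : ℂ) * conj (1 - (x : ℂ) * m) + (k : ℂ))‖ ≤ k :=
    (pow_le_pow_iff_left₀ (norm_nonneg _) hk0 two_ne_zero).1 key
  have hxc : (x : ℂ) ≠ 0 := by exact_mod_cast hx.ne'
  have hx2c : ((1 : ℂ) - (x : ℂ) ^ 2) ≠ 0 := by
    have : ((1 : ℂ) - (x : ℂ) ^ 2) = ((1 - x ^ 2 : ℝ) : ℂ) := by push_cast; ring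
    rw [this]
    exact_mod_cast hx2.ne'
  have hgc : ((gg m.re x : ℝ) : ℂ) ≠ 0 := by exact_mod_cast hg.ne'
  have hconj : conj m = 2 * (m.re : ℂ) - m := by
    apply Complex.ext
    · simp; ring
    · simp
  have e4 : ((x * G : ℝ) : ℂ) * (L - lamc m x) =
      (G : ℂ) * P - (((1 - x ^ 2 : ℝ) : ℂ) * conj (1 - (x : ℂ) * m) + (k : ℂ)) := by
    have e5 : ((x * G : ℝ) : ℂ) * L = (G : ℂ) * (P - 1) := by
      rw [← e1]
      push_cast
      ring
    have e6 : ((x * G : ℝ) : ℂ) * lamc m x =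
        x * (((1 - x ^ 2 : ℝ) : ℂ) * m - ((x * (‖m‖ ^ 2 - x ^ 2) : ℝ) : ℂ)) := by
      unfold lamc
      rw [hG]
      push_cast
      field_simp
    rw [mul_sub, e5, e6]
    rw [map_sub, map_one, map_mul, Complex.conj_ofReal, hconj, hG, hk]
    unfold gg
    push_cast
    ring
  have e7 : x * G * ‖L - lamc m x‖ ≤ k := by
    have := congrArg norm e4
    rw [norm_mul, Complex.norm_real, Real.norm_of_nonneg (by positivity)] at this
    rw [this]
    exact key2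
  rw [le_div_iff₀ hG0]
  have e8 : x * (‖L - lamc m x‖ * G) ≤ x * (x * (1 - ‖m‖ ^ 2)) := by
    calc x * (‖L - lamc m x‖ * G) = x * G * ‖L - lamc m x‖ := by ring
      _ ≤ k := e7
      _ = _ := by rw [hk]; ring
  exact le_of_mul_le_mul_left e8 hx

/-- **the representation from the disc of the logarithmic derivative** -/
theorem repr_abs {K : ℕ} {m : ℂ} (hm : ‖m‖ ≤ 1) {q L : ℝ → ℂ}
    (hLc : ContinuousOn L (Set.Ioo (-1) 1)) (hq0 : q 0 = 1)
    (hqd : ∀ t : ℝ, 0 ≤ t → t < 1 → HasDerivAt q (-(K * L t * q t)) t)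
    (hL : ∀ t : ℝ, 0 ≤ t → t < 1 →
      ‖L t - lamc m t‖ ≤ t * (1 - ‖m‖ ^ 2) / ((1 - t ^ 2) * gg m.re t))
    {x : ℝ} (h0 : 0 ≤ x) (h1 : x < 1) :
    ∃ Z : ℂ, ‖Z‖ ≤ K * (1 - ‖m‖ ^ 2) * JJ m.re x ∧
      q x = Complex.exp (((K * (Real.log (gg m.re x) / 2) -
        K * (1 - ‖m‖ ^ 2) * JJ m.re x : ℝ) : ℂ) -
        ((K * m.im * Th m.re x : ℝ) : ℂ) * Complex.I + Z) := by
  have hm1 : |m.re| ≤ 1 := (Complex.abs_re_le_norm _).trans hm
  have hlc : ContinuousOn (lamc m) (Set.Ioo (-1) 1) := by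
    unfold lamc
    apply ContinuousOn.div
    · apply ContinuousOn.sub continuousOn_const
      apply Complex.continuous_ofReal.comp_continuousOn
      apply ContinuousOn.div
      · fun_prop
      · fun_prop
      · intro t ht
        have h2 : 0 < 1 - t ^ 2 := by nlinarith [ht.1, ht.2]
        exact h2.ne'
    · exact (Complex.continuous_ofReal.comp (gg_cont _)).continuousOn
    · intro t ht
      have := gg_pos hm1 ht.1 ht.2
      exact_mod_cast this.ne'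
  set W : ℝ → ℂ := fun x => ∫ t in (0 : ℝ)..x, (L t - lamc m t) with hW
  refine ⟨-(K * W x), ?_, ?_⟩
  · rw [norm_neg, norm_mul, Complex.norm_natCast, mul_assoc]
    apply mul_le_mul_of_nonneg_left _ (Nat.cast_nonneg K)
    simp only [hW]
    unfold JJ
    rw [← intervalIntegral.integral_const_mul]
    refine (intervalIntegral.norm_integral_le_integral_norm h0).trans ?_
    apply intervalIntegral.integral_mono_on h0
    · apply ContinuousOn.intervalIntegrable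
      rw [Set.uIcc_of_le h0]
      apply ((hLc.sub hlc).mono _).norm
      intro t ht
      exact ⟨by linarith [ht.1], by linarith [ht.2]⟩
    · apply ContinuousOn.intervalIntegrable
      rw [Set.uIcc_of_le h0]
      apply continuousOn_const.mul
      apply (JJ_integrand_cont hm1).mono
      intro t ht
      exact ⟨by linarith [ht.1], by linarith [ht.2]⟩
    · intro t ht
      have := hL t ht.1 (lt_of_le_of_lt ht.2 h1)
      refine this.trans (le_of_eq ?_)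
      ring
  · set Ex : ℝ → ℂ := fun x => (((K * (Real.log (gg m.re x) / 2) -
        K * (1 - ‖m‖ ^ 2) * JJ m.re x : ℝ) : ℂ) -
        ((K * m.im * Th m.re x : ℝ) : ℂ) * Complex.I + -(K * W x)) with hEx
    have hd : ∀ t ∈ Set.Icc 0 x, HasDerivAt Ex (-(K * L t)) t := by
      intro t ht
      have ht0 : -1 < t := by linarith [ht.1]
      have ht1 : t < 1 := lt_of_le_of_lt ht.2 h1
      have hg := gg_pos hm1 ht0 ht1
      have hx2 : 0 < 1 - t ^ 2 := by nlinarith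
      have d1 : HasDerivAt (gg m.re) (-2 * m.re + 2 * t) t := by
        unfold gg
        have := (((hasDerivAt_id t).const_mul 2).mul_const m.re).const_sub 1 |>.add
          (hasDerivAt_pow 2 t)
        refine this.congr_deriv ?_
        simp
      have d2 : HasDerivAt (fun t => Real.log (gg m.re t) / 2) ((-2 * m.re + 2 * t) / gg m.re t / 2)
          t := (d1.log hg.ne').div_const 2
      have d3 := hasDerivAt_integral (JJ_integrand_cont hm1) ht0 ht1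
      have d4 := hasDerivAt_integral (Th_integrand_cont hm1) ht0 ht1
      have d5 := hasDerivAt_integral (hLc.sub hlc) ht0 ht1
      have d6 : HasDerivAt (fun t => K * (Real.log (gg m.re t) / 2) -
          K * (1 - ‖m‖ ^ 2) * JJ m.re t) (K * ((-2 * m.re + 2 * t) / gg m.re t / 2) -
          K * (1 - ‖m‖ ^ 2) * (t / ((1 - t ^ 2) * gg m.re t))) t :=
        (d2.const_mul _).sub (d3.const_mul _)
      have d7 : HasDerivAt (fun t => K * m.im * Th m.re t) (K * m.im * (1 / gg m.re t)) t :=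
        d4.const_mul _
      have d8 : HasDerivAt W (L t - lamc m t) t := d5
      have d9 := (d6.ofReal_comp.sub (d7.ofReal_comp.mul_const Complex.I)).add
        (d8.const_mul (K : ℂ)).neg
      refine d9.congr_deriv ?_
      have hgc : ((gg m.re t : ℝ) : ℂ) ≠ 0 := by exact_mod_cast hg.ne'
      have hx2c : ((1 : ℂ) - (t : ℂ) ^ 2) ≠ 0 := by
        have : ((1 : ℂ) - (t : ℂ) ^ 2) = ((1 - t ^ 2 : ℝ) : ℂ) := by push_cast; ring
        rw [this]
        exact_mod_cast hx2.ne'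
      have hmI : m = (m.re : ℂ) + (m.im : ℂ) * Complex.I := (Complex.re_add_im m).symm
      have hlamceq : lamc m t = ((m.re : ℂ) + (m.im : ℂ) * Complex.I -
          (t * ((‖m‖ : ℂ) ^ 2 - t ^ 2) / (1 - (t : ℂ) ^ 2))) / ((gg m.re t : ℝ) : ℂ) := by
        unfold lamc
        rw [← hmI]
        push_cast
        ring
      rw [hlamceq]
      push_cast
      field_simp
      ring
    have hconst := constant_of_has_deriv_right_zero (f := fun t => q t * Complex.exp (-(Ex t)))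
      (a := 0) (b := x) (by
        apply ContinuousOn.mul
        · intro t ht
          exact (hqd t ht.1 (lt_of_le_of_lt ht.2 h1)).continuousAt.continuousWithinAt
        · apply Complex.continuous_exp.comp_continuousOn
          apply ContinuousOn.neg
          intro t ht
          exact (hd t ht).continuousAt.continuousWithinAt) (by
        intro t ht
        have ht' : t ∈ Set.Icc 0 x := ⟨ht.1, ht.2.le⟩
        have ht1 : t < 1 := lt_trans ht.2 h1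
        have d1 := hqd t ht.1 ht1
        have d2 := (hd t ht').neg.cexp
        refine ((d1.mul d2).congr_deriv ?_).hasDerivWithinAt
        ring) x ⟨h0, le_rfl⟩
    have hE0 : Ex 0 = 0 := by
      simp only [hEx, hW]
      unfold gg JJ Th
      simp
    simp only [hE0, neg_zero, Complex.exp_zero, mul_one, hq0] at hconst
    have h5 : q x = Complex.exp (Ex x) := by
      have h6 : Complex.exp (-(Ex x)) * Complex.exp (Ex x) = 1 := by
        rw [← Complex.exp_add]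
        simp
      calc q x = q x * (Complex.exp (-(Ex x)) * Complex.exp (Ex x)) := by rw [h6, mul_one]
        _ = (q x * Complex.exp (-(Ex x))) * Complex.exp (Ex x) := by ring
        _ = Complex.exp (Ex x) := by rw [hconst, one_mul]
    exact h5

/-! ### the functional -/

section

variable {N : ℕ}

/-- `P(ζ) = (∑ 1/(1 - ζ u_k) - j/(1 - ζ/R))/K` -/
noncomputable def PP (K j : ℕ) (R : ℝ) (u : Fin N → ℂ) (ζ : ℂ) : ℂ :=
  (∑ k, (1 - ζ * u k)⁻¹ - j * (1 - ζ * ((1 / R : ℝ) : ℂ))⁻¹) / K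

/-- `μ = (∑ u_k - j/R)/K` -/
noncomputable def mu (K j : ℕ) (R : ℝ) (u : Fin N → ℂ) : ℂ :=
  (∑ k, u k - j * ((1 / R : ℝ) : ℂ)) / K

theorem mu_eq {K j : ℕ} (hN : 1 ≤ N) (R : ℝ) (u : Fin N → ℂ) :
    mu K j R u = (N * av u - j / R) / K := by
  unfold mu
  rw [sum_av hN]
  push_cast
  ring

variable {K j : ℕ} {R : ℝ} {u : Fin N → ℂ}

theorem ne_of_lt {v : ℂ} (hv : ‖v‖ < 1) : 1 - v ≠ 0 := by
  intro h
  have : v = 1 := by linear_combination -h
  rw [this, norm_one] at hv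
  exact lt_irrefl _ hv

theorem lt_mul {u ζ : ℂ} (hu : ‖u‖ ≤ 1) (hζ : ‖ζ‖ < 1) : ‖ζ * u‖ < 1 := by
  rw [norm_mul]
  nlinarith [norm_nonneg ζ, norm_nonneg u]

theorem norm_inv_R (hR : 1 < R) : ‖((1 / R : ℝ) : ℂ)‖ ≤ 1 := by
  have hR0 : 0 < R := by linarith
  rw [Complex.norm_real, Real.norm_of_nonneg (by positivity), div_le_one hR0]
  exact hR.le

theorem PP_zero (hK : 1 ≤ K) (hN : N = K + j) : PP K j R u 0 = 1 := by
  have hK0 : (K : ℂ) ≠ 0 := by exact_mod_cast (by omega : K ≠ 0)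
  have hNC : (N : ℂ) = K + j := by rw [hN]; push_cast; ring
  unfold PP
  simp only [zero_mul, sub_zero, inv_one, Finset.sum_const, Finset.card_univ, Fintype.card_fin,
    nsmul_eq_mul, mul_one]
  rw [hNC, add_sub_cancel_right, div_self hK0]

/-- positivity -/
theorem PP_re (hK : 1 ≤ K) (hN : N = K + j) (hR : 1 < R) (hu : ∀ k, ‖u k‖ ≤ 1)
    (ht : ∑ k, om R (u k) ≤ K) {ζ : ℂ} (hζ : ‖ζ‖ < 1) : 1 / 2 ≤ (PP K j R u ζ).re := by
  have hKpos : (0 : ℝ) < K := by exact_mod_cast hK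
  set B := (2 * (1 - ζ * ((1 / R : ℝ) : ℂ))⁻¹ - 1).re with hB
  have hB0 : 0 ≤ B := re_moeb_nonneg (lt_mul (norm_inv_R hR) hζ)
  have h1 : ∑ k, (1 - om R (u k)) * B ≤ ∑ k, (2 * (1 - ζ * u k)⁻¹ - 1).re :=
    Finset.sum_le_sum fun k _ => harnack hR (hu k) hζ
  have h2 : ∑ k, (1 - om R (u k)) * B = (N - ∑ k, om R (u k)) * B := by
    rw [← Finset.sum_mul, Finset.sum_sub_distrib]
    simp
  have hNR : (N : ℝ) = K + j := by rw [hN]; push_cast; ring
  have h3 : (j : ℝ) * B ≤ ∑ k, (2 * (1 - ζ * u k)⁻¹ - 1).re := by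
    rw [h2] at h1
    refine le_trans ?_ h1
    apply mul_le_mul_of_nonneg_right _ hB0
    rw [hNR]
    linarith
  have e : ((2 * PP K j R u ζ - 1) * K) =
      ∑ k, (2 * (1 - ζ * u k)⁻¹ - 1) - j * (2 * (1 - ζ * ((1 / R : ℝ) : ℂ))⁻¹ - 1) := by
    have hK0 : (K : ℂ) ≠ 0 := by exact_mod_cast (by omega : K ≠ 0)
    have hNC : (N : ℂ) = K + j := by rw [hN]; push_cast; ring
    unfold PP
    rw [Finset.sum_sub_distrib, ← Finset.mul_sum]
    simp only [Finset.sum_const, Finset.card_univ, Fintype.card_fin, nsmul_eq_mul, mul_one]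
    rw [hNC]
    field_simp
    ring
  have h4 := congrArg Complex.re e
  rw [Complex.sub_re, Complex.re_sum] at h4
  have h5 : ((j : ℂ) * (2 * (1 - ζ * ((1 / R : ℝ) : ℂ))⁻¹ - 1)).re = j * B := by
    rw [← Complex.ofReal_natCast, Complex.re_ofReal_mul]
  have h6 : ((2 * PP K j R u ζ - 1) * K).re = (2 * (PP K j R u ζ).re - 1) * K := by
    rw [← Complex.ofReal_natCast, Complex.re_mul_ofReal, Complex.sub_re, Complex.one_re]
    have : (2 : ℂ) = ((2 : ℝ) : ℂ) := by norm_num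
    rw [this, Complex.re_ofReal_mul]
  rw [h5, h6] at h4
  have h7 : 0 ≤ (2 * (PP K j R u ζ).re - 1) * K := by rw [h4]; linarith
  have h8 : 0 ≤ 2 * (PP K j R u ζ).re - 1 := nonneg_of_mul_nonneg_left h7 hKpos
  linarith

theorem PP_deriv (hR : 1 < R) (hu : ∀ k, ‖u k‖ ≤ 1) {ζ : ℂ} (hζ : ‖ζ‖ < 1) :
    HasDerivAt (PP K j R u) ((∑ k, u k / (1 - ζ * u k) ^ 2 -
      j * (((1 / R : ℝ) : ℂ) / (1 - ζ * ((1 / R : ℝ) : ℂ)) ^ 2)) / K) ζ := by
  have hone : ∀ v : ℂ, ‖v‖ ≤ 1 → HasDerivAt (fun ζ : ℂ => (1 - ζ * v)⁻¹) (v / (1 - ζ * v) ^ 2) ζ := by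
    intro v hv
    have h1 : HasDerivAt (fun ζ : ℂ => 1 - ζ * v) (-v) ζ := by
      simpa using ((hasDerivAt_id ζ).mul_const v).const_sub 1
    have h2 := h1.inv (ne_of_lt (lt_mul hv hζ))
    refine h2.congr_deriv ?_
    rw [neg_neg]
  unfold PP
  apply HasDerivAt.div_const
  apply HasDerivAt.sub
  · apply HasDerivAt.fun_sum
    intro k _
    exact hone _ (hu k)
  · exact (hone _ (norm_inv_R hR)).const_mul _

/-- **Schwarz - Pick for the functional**, and `|μ| ≤ 1` -/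
theorem sweep_sq (hK : 1 ≤ K) (hN : N = K + j) (hR : 1 < R) (hu : ∀ k, ‖u k‖ ≤ 1)
    (ht : ∑ k, om R (u k) ≤ K) {x : ℝ} (h0 : 0 ≤ x) (h1 : x < 1) :
    ‖mu K j R u‖ ≤ 1 ∧
    (1 - x ^ 2) * ‖(1 - (x : ℂ) * mu K j R u) * PP K j R u x - 1‖ ^ 2 ≤
      x ^ 2 * (1 - ‖mu K j R u‖ ^ 2) *
        (2 * (PP K j R u x).re - 1 - (1 - x ^ 2) * ‖PP K j R u x‖ ^ 2) := by
  set P : ℂ → ℂ := PP K j R u with hP
  have hre : ∀ ζ : ℂ, ‖ζ‖ < 1 → 1 / 2 ≤ (P ζ).re := fun ζ hζ => PP_re hK hN hR hu ht hζ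
  have hP0 : ∀ ζ : ℂ, ‖ζ‖ < 1 → P ζ ≠ 0 := by
    intro ζ hζ h
    have := hre ζ hζ
    rw [h, Complex.zero_re] at this
    norm_num at this
  have hPz : P 0 = 1 := PP_zero hK hN
  set φ : ℂ → ℂ := fun ζ => 1 - (P ζ)⁻¹ with hφ
  have hφd : DifferentiableOn ℂ φ (ball 0 1) := by
    intro ζ hζ
    have hζ' := mem_ball_zero_iff.1 hζ
    exact (((PP_deriv hR hu hζ').inv (hP0 ζ hζ')).const_sub 1).differentiableAt.differentiableWithinAt
  have hφm : MapsTo φ (ball 0 1) (closedBall 0 1) := by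
    intro ζ hζ
    have hζ' := mem_ball_zero_iff.1 hζ
    rw [mem_closedBall_zero_iff]
    have h2 : φ ζ = (P ζ - 1) / P ζ := by
      simp only [hφ]
      rw [sub_div, div_self (hP0 ζ hζ'), one_div]
    rw [h2, norm_div, div_le_one (norm_pos_iff.2 (hP0 ζ hζ'))]
    have h3 : ‖P ζ - 1‖ ^ 2 ≤ ‖P ζ‖ ^ 2 := by
      rw [norm_sq_re_im, norm_sq_re_im, Complex.sub_re, Complex.sub_im, Complex.one_re,
        Complex.one_im]
      have := hre ζ hζ'
      nlinarith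
    exact (pow_le_pow_iff_left₀ (norm_nonneg _) (norm_nonneg _) two_ne_zero).1 h3
  have hφ0 : φ 0 = 0 := by
    simp only [hφ]
    rw [hPz, inv_one, sub_self]
  have hder : dslope φ 0 0 = mu K j R u := by
    rw [dslope_same]
    have h2 := ((PP_deriv (K := K) (j := j) hR hu (ζ := 0) (by simp)).inv (hP0 0 (by simp))).const_sub 1
    have h3 : HasDerivAt φ (mu K j R u) 0 := by
      refine h2.congr_deriv ?_
      have h4 : PP K j R u 0 = 1 := hPz
      rw [h4]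
      unfold mu
      simp
    exact h3.deriv
  have hxn : ‖(x : ℂ)‖ < 1 := by rwa [Complex.norm_real, Real.norm_of_nonneg h0]
  obtain ⟨p1, p2⟩ := pick_two hφd hφm hφ0 hxn
  rw [hder] at p1 p2
  refine ⟨p1, ?_⟩
  rcases h0.eq_or_lt with hx | hx
  · subst hx
    have : P ((0 : ℝ) : ℂ) = 1 := by simpa using hPz
    rw [this]
    simp
  · have hxc : (x : ℂ) ≠ 0 := by exact_mod_cast hx.ne'
    have hPx := hP0 x hxn
    have hds : dslope φ 0 x = (P x - 1) / (x * P x) := by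
      rw [dslope_of_ne _ hxc, slope_def_field, hφ0, sub_zero, sub_zero]
      simp only [hφ]
      field_simp
    rw [hds] at p2
    set m := mu K j R u with hm
    set Q := P x with hQ
    have hxP : 0 < ‖(x : ℂ) * Q‖ := norm_pos_iff.2 (mul_ne_zero hxc hPx)
    have p3 : ‖Q - 1 - m * (x * Q)‖ ≤ x * ‖x * Q - conj m * (Q - 1)‖ := by
      have a1 : ‖(Q - 1) / (x * Q) - m‖ * ‖(x : ℂ) * Q‖ = ‖Q - 1 - m * (x * Q)‖ := by
        rw [← norm_mul]
        congr 1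
        field_simp
      have a2 : ‖1 - conj m * ((Q - 1) / (x * Q))‖ * ‖(x : ℂ) * Q‖ =
          ‖x * Q - conj m * (Q - 1)‖ := by
        rw [← norm_mul]
        congr 1
        field_simp
      rw [← a1, ← a2]
      calc ‖(Q - 1) / (x * Q) - m‖ * ‖(x : ℂ) * Q‖ ≤
          (‖(x : ℂ)‖ * ‖1 - conj m * ((Q - 1) / (x * Q))‖) * ‖(x : ℂ) * Q‖ :=
            mul_le_mul_of_nonneg_right p2 hxP.le
        _ = _ := by
          rw [Complex.norm_real, Real.norm_of_nonneg h0]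
          ring
    have p4 : ‖Q - 1 - m * (x * Q)‖ ^ 2 ≤ x ^ 2 * ‖x * Q - conj m * (Q - 1)‖ ^ 2 := by
      rw [← mul_pow]
      exact pow_le_pow_left₀ (norm_nonneg _) p3 2
    have e1 : (1 - (x : ℂ) * m) * Q - 1 = Q - 1 - m * (x * Q) := by ring
    rw [e1]
    have e2 : x ^ 2 * (1 - ‖m‖ ^ 2) * (2 * Q.re - 1 - (1 - x ^ 2) * ‖Q‖ ^ 2) =
        x ^ 2 * ‖x * Q - conj m * (Q - 1)‖ ^ 2 - x ^ 2 * ‖Q - 1 - m * (x * Q)‖ ^ 2 := by
      rw [norm_sq_re_im, norm_sq_re_im, norm_sq_re_im, norm_sq_re_im]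
      simp only [Complex.sub_re, Complex.sub_im, Complex.mul_re, Complex.mul_im, Complex.one_re,
        Complex.one_im, Complex.ofReal_re, Complex.ofReal_im, Complex.conj_re, Complex.conj_im]
      ring
    rw [e2]
    linarith

/-- the logarithmic derivative of `Q`, divided by `-K` -/
noncomputable def LL (K j : ℕ) (R : ℝ) (u : Fin N → ℂ) (x : ℝ) : ℂ :=
  (∑ k, u k / (1 - (x : ℂ) * u k) -
    j * (((1 / R : ℝ) : ℂ) / (1 - (x : ℂ) * ((1 / R : ℝ) : ℂ)))) / K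

/-- `Q(x) = qq u x / (1 - x/R)^j` -/
noncomputable def QQ (j : ℕ) (R : ℝ) (u : Fin N → ℂ) (x : ℝ) : ℂ :=
  qq u x / ((1 - x / R : ℝ) : ℂ) ^ j

theorem mul_LL (hK : 1 ≤ K) (hN : N = K + j) (hR : 1 < R) (hu : ∀ k, ‖u k‖ ≤ 1) {x : ℝ}
    (h0 : 0 ≤ x) (h1 : x < 1) : (x : ℂ) * LL K j R u x = PP K j R u x - 1 := by
  have hK0 : (K : ℂ) ≠ 0 := by exact_mod_cast (by omega : K ≠ 0)
  have hxn : ‖(x : ℂ)‖ < 1 := by rwa [Complex.norm_real, Real.norm_of_nonneg h0]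
  have hone : ∀ v : ℂ, ‖v‖ ≤ 1 → (x : ℂ) * (v / (1 - (x : ℂ) * v)) = (1 - (x : ℂ) * v)⁻¹ - 1 := by
    intro v hv
    have := ne_of_lt (lt_mul hv hxn)
    field_simp
    ring
  have hNC : (N : ℂ) = K + j := by rw [hN]; push_cast; ring
  have e : (x : ℂ) * (∑ k, u k / (1 - (x : ℂ) * u k) -
      j * (((1 / R : ℝ) : ℂ) / (1 - (x : ℂ) * ((1 / R : ℝ) : ℂ)))) =
      (∑ k, (1 - (x : ℂ) * u k)⁻¹ - j * (1 - (x : ℂ) * ((1 / R : ℝ) : ℂ))⁻¹) - K := by
    rw [mul_sub, Finset.mul_sum, mul_left_comm, hone _ (norm_inv_R hR)]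
    simp only [hone _ (hu _)]
    rw [Finset.sum_sub_distrib]
    simp only [Finset.sum_const, Finset.card_univ, Fintype.card_fin, nsmul_eq_mul, mul_one]
    rw [hNC]
    ring
  unfold LL PP
  rw [mul_div_assoc', e, sub_div, div_self hK0]

theorem QQ_zero : QQ j R u 0 = 1 := by
  unfold QQ
  simp

theorem one_sub_div_pos (hR : 1 < R) {x : ℝ} (h1 : x < 1) : 0 < 1 - x / R := by
  have hR0 : 0 < R := by linarith
  rw [sub_pos, div_lt_one hR0]
  linarith

theorem QQ_hasDerivAt (hK : 1 ≤ K) (hN : N = K + j) (hR : 1 < R) (hu : ∀ k, ‖u k‖ ≤ 1) {x : ℝ}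
    (h0 : 0 ≤ x) (h1 : x < 1) :
    HasDerivAt (QQ j R u) (-(K * LL K j R u x * QQ j R u x)) x := by
  have hR0 : 0 < R := by linarith
  have hRc : (R : ℂ) ≠ 0 := by exact_mod_cast hR0.ne'
  have hK0 : (K : ℂ) ≠ 0 := by exact_mod_cast (by omega : K ≠ 0)
  have hN1 : 1 ≤ N := by omega
  have hp := one_sub_div_pos hR h1
  have hpc : ((1 - x / R : ℝ) : ℂ) ≠ 0 := by exact_mod_cast hp.ne'
  have hpc2 : (1 : ℂ) - x / R ≠ 0 := by
    have : (1 : ℂ) - x / R = ((1 - x / R : ℝ) : ℂ) := by push_cast; ring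
    rwa [this]
  have d1 := qq_hasDerivAt' hN1 (v := u) (x := x) (fun k => one_sub_ne' (hu k) h0 h1)
  have d2 : HasDerivAt (fun x : ℝ => ((1 - x / R : ℝ) : ℂ)) (((-(1 / R) : ℝ)) : ℂ) x := by
    have : HasDerivAt (fun x : ℝ => 1 - x / R) (-(1 / R)) x := by
      simpa using ((hasDerivAt_id x).div_const R).const_sub 1
    exact this.ofReal_comp
  have d3 := d2.pow j
  have d4 := d1.div d3 (pow_ne_zero j hpc)
  have hQ : QQ j R u = fun x => qq u x / ((1 - x / R : ℝ) : ℂ) ^ j := rfl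
  rw [hQ]
  refine d4.congr_deriv ?_
  have e1 : (N : ℂ) * lam u x = ∑ k, u k / (1 - (x : ℂ) * u k) := by
    unfold lam
    rw [← sum_av hN1]
  have e2 : (K : ℂ) * LL K j R u x = N * lam u x - j * ((1 / R : ℂ) / (1 - x / R)) := by
    unfold LL
    rw [e1, mul_div_cancel₀ _ hK0]
    push_cast
    congr 3
    ring
  rw [e2]
  rcases Nat.eq_zero_or_pos j with hj | hj
  · subst hj
    simp
  · obtain ⟨i, rfl⟩ : ∃ i, j = i + 1 := ⟨j - 1, by omega⟩
    have e3 : (1 : ℂ) - x / R = ((1 - x / R : ℝ) : ℂ) := by push_cast; ring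
    rw [e3]
    simp only [Pi.pow_apply, Nat.add_sub_cancel]
    generalize ((1 - x / R : ℝ) : ℂ) = p at hpc ⊢
    have hpow : p ^ i ≠ 0 := pow_ne_zero i hpc
    push_cast
    rw [pow_succ]
    field_simp
    ring

/-- **SWEEP**: the representation of `Q` -/
theorem sweep_repr (hK : 1 ≤ K) (hN : N = K + j) (hR : 1 < R) (hu : ∀ k, ‖u k‖ ≤ 1)
    (ht : ∑ k, om R (u k) ≤ K) {x : ℝ} (h0 : 0 ≤ x) (h1 : x < 1) :
    ∃ Z : ℂ, ‖Z‖ ≤ K * (1 - ‖mu K j R u‖ ^ 2) * JJ (mu K j R u).re x ∧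
      QQ j R u x = Complex.exp (((K * (Real.log (gg (mu K j R u).re x) / 2) -
        K * (1 - ‖mu K j R u‖ ^ 2) * JJ (mu K j R u).re x : ℝ) : ℂ) -
        ((K * (mu K j R u).im * Th (mu K j R u).re x : ℝ) : ℂ) * Complex.I + Z) := by
  have hmu : ‖mu K j R u‖ ≤ 1 := (sweep_sq hK hN hR hu ht le_rfl one_pos).1
  have hLc : ContinuousOn (LL K j R u) (Set.Ioo (-1) 1) := by
    have hne : ∀ v : ℂ, ‖v‖ ≤ 1 → ∀ t ∈ Set.Ioo (-1 : ℝ) 1, 1 - (t : ℂ) * v ≠ 0 := by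
      intro v hv t ht
      apply ne_of_lt (lt_mul hv _)
      rw [Complex.norm_real, Real.norm_eq_abs]
      exact abs_lt.2 ht
    unfold LL
    apply ContinuousOn.div_const
    apply ContinuousOn.sub
    · apply continuousOn_finsetSum
      intro k _
      exact ContinuousOn.div continuousOn_const (by fun_prop) (hne _ (hu k))
    · apply ContinuousOn.mul continuousOn_const
      exact ContinuousOn.div continuousOn_const (by fun_prop) (hne _ (norm_inv_R hR))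
  refine repr_abs hmu hLc QQ_zero (fun t ht0 ht1 => QQ_hasDerivAt hK hN hR hu ht0 ht1) ?_ h0 h1
  intro t ht0 ht1
  refine disc_abs hmu ht0 ht1 (mul_LL hK hN hR hu ht0 ht1) ?_ (sweep_sq hK hN hR hu ht ht0 ht1).2
  intro h
  subst h
  unfold LL mu
  simp

/-- `|Q(x)| ≤ g(μ₁, x)^(K/2)` -/
theorem sweep_norm_le (hK : 1 ≤ K) (hN : N = K + j) (hR : 1 < R) (hu : ∀ k, ‖u k‖ ≤ 1)
    (ht : ∑ k, om R (u k) ≤ K) {x : ℝ} (h0 : 0 ≤ x) (h1 : x < 1) :
    ‖QQ j R u x‖ ≤ Real.exp (K * (Real.log (gg (mu K j R u).re x) / 2)) := by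
  obtain ⟨Z, hZ, hq⟩ := sweep_repr hK hN hR hu ht h0 h1
  rw [hq, Complex.norm_exp]
  apply Real.exp_le_exp.2
  rw [Complex.add_re, Complex.sub_re, Complex.ofReal_re]
  have h2 : ((((K * (mu K j R u).im * Th (mu K j R u).re x : ℝ) : ℂ)) * Complex.I).re = 0 := by
    simp
  rw [h2]
  have h3 := (Complex.re_le_norm Z).trans hZ
  linarith

end

end Pool.Agent.Lib.MP_af3a4a_an.P1.H32
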